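import Mathlib

set_option autoImplicit false
set_option linter.unusedSectionVars false

namespace Pool.Agent.Lib.MP_cc5cd7_ag

open MvPolynomial

noncomputable section

variable {σ : Type*} [Fintype σ] [DecidableEq σ]

/-- degree in the variables other than `j` -/
def ud (j : σ) (d : σ →₀ ℕ) : ℕ := ∑ i ∈ Finset.univ.erase j, d i

lemma ud_add (j : σ) (a b : σ →₀ ℕ) : ud j (a + b) = ud j a + ud j b := by
  simp [ud, Finset.sum_add_distrib]

lemma ud_smul (j : σ) (q : ℕ) (a : σ →₀ ℕ) : ud j (q • a) = q * ud j a := by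
  simp [ud, Finset.mul_sum]

lemma ud_zero (j : σ) : ud j 0 = 0 := by simp [ud]

lemma ud_add_self (j : σ) (d : σ →₀ ℕ) : ud j d + d j = d.degree := by
  rw [ud, Finsupp.degree_eq_sum, Finset.sum_erase_add _ _ (Finset.mem_univ j)]

lemma ud_le_degree (j : σ) (d : σ →₀ ℕ) : ud j d ≤ d.degree := by
  rw [← ud_add_self j d]; omega

lemma ud_single_self (j : σ) (n : ℕ) : ud j (Finsupp.single j n) = 0 := by
  apply Finset.sum_eq_zero
  intro i hi
  rw [Finsupp.single_eq_of_ne (Finset.ne_of_mem_erase hi)]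

lemma ud_single_ne {i j : σ} (h : i ≠ j) (n : ℕ) : ud j (Finsupp.single i n) = n := by
  have := ud_add_self j (Finsupp.single i n)
  rw [Finsupp.single_eq_of_ne h.symm, Finsupp.degree_single] at this
  omega

lemma ud_le_of_lt (j : σ) (q : ℕ) (d : σ →₀ ℕ) (h : ∀ i, d i < q) :
    ud j d ≤ (Fintype.card σ - 1) * (q - 1) := by
  have : ud j d ≤ ∑ _i ∈ Finset.univ.erase j, (q - 1) :=
    Finset.sum_le_sum fun i _ => Nat.le_sub_one_of_lt (h i)
  simpa using this

variable {A : Type*} [CommRing A]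

/-- polynomials all of whose monomials have degree at least `n` outside `j` -/
def Wt (A : Type*) [CommRing A] (j : σ) (n : ℕ) : Ideal (MvPolynomial σ A) where
  carrier := {f | ∀ d, ud j d < n → coeff d f = 0}
  add_mem' := by
    intro f g hf hg d hd
    rw [coeff_add, hf d hd, hg d hd, add_zero]
  zero_mem' := fun d _ => coeff_zero d
  smul_mem' := by
    intro c f hf d hd
    rw [smul_eq_mul, coeff_mul]
    apply Finset.sum_eq_zero
    intro x hx
    have h := Finset.HasAntidiagonal.mem_antidiagonal.mp hx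
    have h2 := ud_add j x.1 x.2
    rw [h] at h2
    rw [hf x.2 (by omega), mul_zero]

lemma mem_Wt {j : σ} {n : ℕ} {f : MvPolynomial σ A} :
    f ∈ Wt A j n ↔ ∀ d, ud j d < n → coeff d f = 0 := Iff.rfl

lemma Wt_mul {j : σ} {a b : ℕ} {f g : MvPolynomial σ A} (hf : f ∈ Wt A j a) (hg : g ∈ Wt A j b) :
    f * g ∈ Wt A j (a + b) := by
  intro d hd
  rw [coeff_mul]
  apply Finset.sum_eq_zero
  intro x hx
  have h := Finset.HasAntidiagonal.mem_antidiagonal.mp hx
  have h2 := ud_add j x.1 x.2
  rw [h] at h2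
  by_cases h3 : ud j x.1 < a
  · rw [hf x.1 h3, zero_mul]
  · rw [hg x.2 (by omega), mul_zero]

lemma Wt_anti (j : σ) {a b : ℕ} (h : a ≤ b) : Wt A j b ≤ Wt A j a :=
  fun _ hf d hd => hf d (by omega)

lemma Wt_zero (j : σ) : Wt A j 0 = ⊤ := by
  rw [eq_top_iff]; intro f _ d hd; omega

lemma monomial_mem_Wt (j : σ) (d : σ →₀ ℕ) (a : A) : monomial d a ∈ Wt A j (ud j d) := by
  intro e he
  rw [coeff_monomial, if_neg]
  rintro rfl; omega

/-- the ideal of the coordinate point -/
def U (A : Type*) [CommRing A] (j : σ) : Ideal (MvPolynomial σ A) :=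
  Ideal.span {f | ∃ i, i ≠ j ∧ f = X i}

lemma monomial_mem_U_pow (j : σ) (n : ℕ) :
    ∀ (d : σ →₀ ℕ) (a : A), n ≤ ud j d → monomial d a ∈ U A j ^ n := by
  induction n with
  | zero => intro d a _; simp
  | succ n ih =>
    intro d a h
    obtain ⟨i, hi, hd⟩ : ∃ i, i ≠ j ∧ d i ≠ 0 := by
      by_contra hne
      push Not at hne
      have : ud j d = 0 := Finset.sum_eq_zero fun i hi => hne i (Finset.ne_of_mem_erase hi)
      omega
    have e : d = (d - Finsupp.single i 1) + Finsupp.single i 1 := by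
      rw [tsub_add_cancel_of_le]
      rw [Finsupp.single_le_iff]; omega
    have h2 := ud_add j (d - Finsupp.single i 1) (Finsupp.single i 1)
    rw [← e, ud_single_ne hi] at h2
    have e2 : monomial d a = monomial (d - Finsupp.single i 1) a * X i := by
      rw [X, monomial_mul, mul_one, ← e]
    rw [e2, pow_succ]
    exact Ideal.mul_mem_mul (ih _ _ (by omega)) (Ideal.subset_span ⟨i, hi, rfl⟩)

lemma Wt_eq_pow (j : σ) (n : ℕ) : Wt A j n = U A j ^ n := by
  apply le_antisymm
  · intro f hf
    rw [f.as_sum]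
    apply Ideal.sum_mem
    intro d hd
    apply monomial_mem_U_pow
    by_contra hlt
    exact (mem_support_iff.mp hd) (hf d (by omega))
  · induction n with
    | zero => rw [Wt_zero]; exact le_top
    | succ n ih =>
      rw [pow_succ, Ideal.mul_le]
      intro f hf g hg
      refine Wt_mul (ih hf) ?_
      have : U A j ≤ Wt A j 1 := by
        rw [U, Ideal.span_le]
        rintro _ ⟨i, hi, rfl⟩
        have := monomial_mem_Wt j (Finsupp.single i 1) (1 : A)
        rwa [ud_single_ne hi] at this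
      exact this hg

/-- shear moving the point `v` (normalised at `j`) to the coordinate point -/
def sh (j : σ) (v : σ → A) : MvPolynomial σ A →ₐ[A] MvPolynomial σ A :=
  aeval fun i => if i = j then X j else X i + C (v i) * X j

lemma sh_X (j : σ) (v : σ → A) (i : σ) :
    sh j v (X i) = if i = j then X j else X i + C (v i) * X j := by simp [sh]

lemma sh_sh (j : σ) (v w : σ → A) (f : MvPolynomial σ A) :
    sh j w (sh j v f) = sh j (v + w) f := by
  have : (sh j w).comp (sh j v) = sh j (v + w) := by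
    apply MvPolynomial.algHom_ext
    intro i
    rw [AlgHom.comp_apply, sh_X, sh_X]
    by_cases h : i = j
    · simp [h, sh_X]
    · simp only [h, if_false, map_add, map_mul, sh_X, if_true, Pi.add_apply]
      rw [← algebraMap_eq, AlgHom.commutes, algebraMap_eq]
      ring
  exact AlgHom.congr_fun this f

lemma sh_zero (j : σ) (f : MvPolynomial σ A) : sh j 0 f = f := by
  have : sh j (0 : σ → A) = AlgHom.id A _ := by
    apply MvPolynomial.algHom_ext
    intro i
    rw [sh_X]
    by_cases h : i = j <;> simp [h]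
  rw [this]; rfl

lemma sh_neg_sh (j : σ) (v : σ → A) (f : MvPolynomial σ A) : sh j (-v) (sh j v f) = f := by
  rw [sh_sh, add_neg_cancel, sh_zero]

lemma sh_sh_neg (j : σ) (v : σ → A) (f : MvPolynomial σ A) : sh j v (sh j (-v) f) = f := by
  rw [sh_sh, neg_add_cancel, sh_zero]

lemma sh_injective (j : σ) (v : σ → A) : Function.Injective (sh j v) :=
  Function.LeftInverse.injective (sh_neg_sh j v)

lemma sh_hom (j : σ) (v : σ → A) {f : MvPolynomial σ A} {n : ℕ} (hf : f.IsHomogeneous n) :
    (sh j v f).IsHomogeneous n := by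
  have := hf.aeval (S := A) (τ := σ) (n := 1)
    (fun i => if i = j then X j else X i + C (v i) * X j) (by
      intro i
      by_cases h : i = j
      · simp only [h, if_true]; exact isHomogeneous_X A j
      · simp only [h, if_false]
        exact (isHomogeneous_X A i).add (isHomogeneous_C_mul_X _ _))
  rwa [one_mul] at this

lemma map_sh {B : Type*} [CommRing B] (ψ : A →+* B) (j : σ) (v : σ → A) (f : MvPolynomial σ A) :
    map ψ (sh j v f) = sh j (fun i => ψ (v i)) (map ψ f) := by
  have : (map ψ).comp (sh j v : MvPolynomial σ A →+* MvPolynomial σ A) =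
      (sh j (fun i => ψ (v i)) : MvPolynomial σ B →+* MvPolynomial σ B).comp (map ψ) := by
    apply MvPolynomial.ringHom_ext
    · intro r
      simp [sh]
    · intro i
      by_cases h : i = j <;> simp [sh_X, h]
  exact RingHom.congr_fun this f

/-- vanishing to order `n` at the point `v` -/
def V (j : σ) (v : σ → A) (n : ℕ) : Ideal (MvPolynomial σ A) := (Wt A j n).comap (sh j v)

lemma mem_V {j : σ} {v : σ → A} {n : ℕ} {f : MvPolynomial σ A} :
    f ∈ V j v n ↔ sh j v f ∈ Wt A j n := Iff.rfl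

lemma V_mul {j : σ} {v : σ → A} {a b : ℕ} {f g : MvPolynomial σ A} (hf : f ∈ V j v a)
    (hg : g ∈ V j v b) : f * g ∈ V j v (a + b) := by
  rw [mem_V, map_mul]; exact Wt_mul hf hg

lemma V_anti (j : σ) (v : σ → A) {a b : ℕ} (h : a ≤ b) : V j v b ≤ V j v a :=
  fun _ hf => Wt_anti j h hf

lemma V_zero (j : σ) (v : σ → A) : V j v 0 = ⊤ := by
  rw [V, Wt_zero, Ideal.comap_top]

lemma V_pow {j : σ} {v : σ → A} {a : ℕ} {f : MvPolynomial σ A} (hf : f ∈ V j v a) (n : ℕ) :
    f ^ n ∈ V j v (n * a) := by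
  induction n with
  | zero => rw [zero_mul, V_zero]; trivial
  | succ n ih => rw [pow_succ, add_mul, one_mul]; exact V_mul ih hf

lemma V_eq_map (j : σ) (v : σ → A) (n : ℕ) : V j v n = (Wt A j n).map (sh j (-v)) := by
  apply le_antisymm
  · intro f hf
    rw [← sh_neg_sh j v f]
    exact Ideal.mem_map_of_mem _ hf
  · rw [Ideal.map_le_iff_le_comap]
    intro f hf
    rw [Ideal.mem_comap, mem_V, sh_sh_neg]
    exact hf

lemma V_eq_pow (j : σ) (v : σ → A) (n : ℕ) : V j v n = V j v 1 ^ n := by
  rw [V_eq_map, V_eq_map, Wt_eq_pow, Wt_eq_pow, Ideal.map_pow, Ideal.map_pow, pow_one]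

lemma map_mem_V {B : Type*} [CommRing B] (ψ : A →+* B) {j : σ} {v : σ → A} {n : ℕ}
    {f : MvPolynomial σ A} (hf : f ∈ V j v n) : map ψ f ∈ V j (fun i => ψ (v i)) n := by
  intro d hd
  rw [← map_sh, coeff_map, hf d hd, map_zero]

lemma mem_V_of_map {B : Type*} [CommRing B] (ψ : A →+* B) (hψ : Function.Injective ψ) {j : σ}
    {v : σ → A} {n : ℕ}
    {f : MvPolynomial σ A} (hf : map ψ f ∈ V j (fun i => ψ (v i)) n) : f ∈ V j v n := by
  intro d hd
  apply hψ
  have := hf d hd
  rw [← map_sh, coeff_map] at this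
  rw [this, map_zero]

lemma le_of_mem_V {j : σ} {v : σ → A} {n e : ℕ} {f : MvPolynomial σ A} (h0 : f ≠ 0)
    (hf : f.IsHomogeneous e) (h : f ∈ V j v n) : n ≤ e := by
  have h1 : sh j v f ≠ 0 := fun h2 => h0 (sh_injective j v (by rw [h2, map_zero]))
  obtain ⟨d, hd⟩ := ne_zero_iff.mp h1
  have h2 : d.degree = e := by
    by_contra hne
    exact hd ((sh_hom j v hf).coeff_eq_zero hne)
  have h3 := ud_le_degree j d
  by_contra hlt
  exact hd (h d (by omega))

omit [Fintype σ] [DecidableEq σ] in
lemma deriv_mem_pow (D : Derivation A (MvPolynomial σ A) (MvPolynomial σ A))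
    (I : Ideal (MvPolynomial σ A)) (n : ℕ) :
    ∀ f ∈ I ^ (n + 1), D f ∈ I ^ n := by
  induction n with
  | zero => intro f _; simp
  | succ n ih =>
    intro f hf
    rw [pow_succ] at hf
    refine Submodule.mul_induction_on hf ?_ ?_
    · intro a ha b hb
      rw [Derivation.leibniz, smul_eq_mul, smul_eq_mul]
      apply Ideal.add_mem
      · exact Ideal.mul_mem_right _ _ ha
      · rw [pow_succ']
        exact Ideal.mul_mem_mul hb (ih a ha)
    · intro a b ha hb
      rw [map_add]; exact Ideal.add_mem _ ha hb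

lemma pderiv_mem_V {j : σ} {v : σ → A} {n : ℕ} {f : MvPolynomial σ A} (i : σ)
    (hf : f ∈ V j v (n + 1)) : pderiv i f ∈ V j v n := by
  rw [V_eq_pow] at hf ⊢
  exact deriv_mem_pow _ _ n f hf

end

end Pool.Agent.Lib.MP_cc5cd7_ag
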