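import Mathlib

set_option autoImplicit false

namespace Pool.Agent.Lib.MP_cc5cd7_ag

/-- The ideal `I(P)` generated by the forms vanishing at the point `P` of projective space. -/
noncomputable def pointIdeal {K : Type*} [Field K] {N : ℕ} (P : Projectivization K (Fin (N + 1) → K)) :
    Ideal (MvPolynomial (Fin (N + 1)) K) :=
  Ideal.span {f | (∃ d : ℕ, f.IsHomogeneous d) ∧ MvPolynomial.eval P.rep f = 0}

/-- The ideal `I(tZ)` of the fat point scheme `t Z`, where `Z = ∑ P ∈ S, mult P • P`. -/
noncomputable def fatIdeal {K : Type*} [Field K] {N : ℕ} (S : Finset (Projectivization K (Fin (N + 1) → K)))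
    (mult : Projectivization K (Fin (N + 1) → K) → ℕ) (t : ℕ) :
    Ideal (MvPolynomial (Fin (N + 1)) K) :=
  ⨅ P ∈ S, pointIdeal P ^ (t * mult P)

/-- The least degree of a nonzero element of an ideal. -/
noncomputable def alpha {K : Type*} [Field K] {N : ℕ}
    (J : Ideal (MvPolynomial (Fin (N + 1)) K)) : ℕ :=
  sInf {d : ℕ | ∃ f ∈ J, f ≠ 0 ∧ f.totalDegree = d}

end Pool.Agent.Lib.MP_cc5cd7_ag
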