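import Pool.Agent.Lib.MP_cc5cd7_ag.Basic
import Pool.Agent.Lib.MP_cc5cd7_ag.Defs

set_option autoImplicit false
set_option linter.unusedSectionVars false

namespace Pool.Agent.Lib.MP_cc5cd7_ag

open MvPolynomial

noncomputable section

section General

variable {σ : Type*} [Fintype σ] [DecidableEq σ] {A : Type*} [CommRing A]

lemma coeff_sh_component (j : σ) (v : σ → A) (f : MvPolynomial σ A) (d : σ →₀ ℕ) :
    coeff d (sh j v (homogeneousComponent d.degree f)) = coeff d (sh j v f) := by
  conv_rhs => rw [← sum_homogeneousComponent f, map_sum, coeff_sum]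
  rw [Finset.sum_eq_single d.degree]
  · intro b _ hb
    exact (sh_hom j v (homogeneousComponent_isHomogeneous b f)).coeff_eq_zero (Ne.symm hb)
  · intro h
    rw [homogeneousComponent_eq_zero, map_zero, coeff_zero]
    rw [Finset.mem_range] at h
    omega

lemma component_mem_V {j : σ} {v : σ → A} {n : ℕ} {f : MvPolynomial σ A} (hf : f ∈ V j v n)
    (c : ℕ) : homogeneousComponent c f ∈ V j v n := by
  intro d hd
  by_cases h : d.degree = c
  · subst h
    rw [coeff_sh_component]
    exact hf d hd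
  · exact (sh_hom j v (homogeneousComponent_isHomogeneous c f)).coeff_eq_zero h

lemma eval_smul_hom {f : MvPolynomial σ A} {c : ℕ} (hf : f.IsHomogeneous c) (a : A) (v : σ → A) :
    eval (a • v) f = a ^ c * eval v f := by
  rw [eval_eq', eval_eq', Finset.mul_sum]
  apply Finset.sum_congr rfl
  intro d hd
  have h1 : d.degree = c := by
    by_contra hne; exact (mem_support_iff.mp hd) (hf.coeff_eq_zero hne)
  simp only [Pi.smul_apply, smul_eq_mul, mul_pow, Finset.prod_mul_distrib,
    Finset.prod_pow_eq_pow_sum]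
  rw [← h1, Finsupp.degree_eq_sum]; ring

lemma eval_sh (j : σ) (v : σ → A) (hv : v j = 1) (f : MvPolynomial σ A) :
    eval (Pi.single j 1) (sh j v f) = eval v f := by
  have : (eval (Pi.single j (1 : A))).comp (sh j v : MvPolynomial σ A →+* MvPolynomial σ A) =
      eval v := by
    apply MvPolynomial.ringHom_ext
    · intro r; simp [sh]
    · intro i
      by_cases h : i = j
      · simp [sh_X, h, hv]
      · simp [sh_X, h]
  exact RingHom.congr_fun this f

lemma eval_eq_zero_of_mem_Wt {j : σ} {g : MvPolynomial σ A} (hg : g ∈ Wt A j 1) :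
    eval (Pi.single j 1) g = 0 := by
  rw [Wt_eq_pow, pow_one] at hg
  have : U A j ≤ RingHom.ker (eval (Pi.single j (1 : A))) := by
    rw [U, Ideal.span_le]
    rintro _ ⟨i, hi, rfl⟩
    simp [hi]
  exact this hg

lemma eq_single_of_ud {j : σ} {d : σ →₀ ℕ} (h : ud j d < 1) : d = Finsupp.single j (d j) := by
  ext i
  by_cases hi : i = j
  · simp [hi]
  · rw [Finsupp.single_eq_of_ne hi]
    have h0 : ud j d = 0 := by omega
    exact Finset.sum_eq_zero_iff.mp h0 i (Finset.mem_erase.mpr ⟨hi, Finset.mem_univ i⟩)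

lemma mem_Wt_one {j : σ} {g : MvPolynomial σ A} {c : ℕ} (hg : g.IsHomogeneous c)
    (h : eval (Pi.single j 1) g = 0) : g ∈ Wt A j 1 := by
  have h1 : g - monomial (Finsupp.single j c) (coeff (Finsupp.single j c) g) ∈ Wt A j 1 := by
    intro d hd
    rw [coeff_sub, coeff_monomial]
    split_ifs with h2
    · rw [h2, sub_self]
    · rw [sub_zero]
      apply hg.coeff_eq_zero
      intro h3
      apply h2
      have h4 := eq_single_of_ud hd
      have h5 := ud_add_self j d
      rw [h4]; congr 1; omega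
  have h2 := eval_eq_zero_of_mem_Wt h1
  rw [map_sub, h, eval_monomial, Finsupp.prod_single_index (by simp)] at h2
  simp only [Pi.single_eq_same, one_pow, mul_one, zero_sub, neg_eq_zero] at h2
  rw [h2, monomial_zero, sub_zero] at h1
  exact h1

lemma lin_mem_V (j : σ) (v : σ → A) {i : σ} (hi : i ≠ j) :
    (X i - C (v i) * X j : MvPolynomial σ A) ∈ V j v 1 := by
  rw [V_eq_map]
  have h1 : (X i : MvPolynomial σ A) ∈ Wt A j 1 := by
    rw [Wt_eq_pow, pow_one]; exact Ideal.subset_span ⟨i, hi, rfl⟩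
  have h2 := Ideal.mem_map_of_mem (sh j (-v)) h1
  rw [sh_X, if_neg hi] at h2
  convert h2 using 1
  simp only [Pi.neg_apply, map_neg]; ring

lemma lin_ne_zero [Nontrivial A] (j : σ) (a : A) {i : σ} (hi : i ≠ j) :
    (X i - C a * X j : MvPolynomial σ A) ≠ 0 := by
  intro h
  have := congrArg (eval (Pi.single i (1 : A))) h
  simp [hi.symm] at this

end General

variable {K : Type*} [Field K] {N : ℕ}

lemma exists_chart (P : Projectivization K (Fin (N + 1) → K)) :
    ∃ (j : Fin (N + 1)) (v : Fin (N + 1) → K), pointIdeal P = V j v 1 := by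
  obtain ⟨j, hj⟩ : ∃ j, P.rep j ≠ 0 := by
    by_contra h
    push Not at h
    exact P.rep_nonzero (funext h)
  refine ⟨j, (P.rep j)⁻¹ • P.rep, le_antisymm ?_ ?_⟩
  · rw [pointIdeal, Ideal.span_le]
    rintro f ⟨⟨c, hc⟩, hf⟩
    refine mem_Wt_one (sh_hom _ _ hc) ?_
    rw [eval_sh _ _ (by simp [hj]), eval_smul_hom hc, hf, mul_zero]
  · rw [V_eq_map, Wt_eq_pow, pow_one, U, Ideal.map_span, Ideal.span_le]
    rintro _ ⟨_, ⟨i, hi, rfl⟩, rfl⟩
    apply Ideal.subset_span
    refine ⟨⟨1, sh_hom _ _ (isHomogeneous_X K i)⟩, ?_⟩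
    rw [sh_X, if_neg hi]
    simp only [Pi.neg_apply, Pi.smul_apply, smul_eq_mul, map_add, eval_X, map_mul, eval_C]
    field_simp
    ring

/-- a choice of chart -/
def cj (P : Projectivization K (Fin (N + 1) → K)) : Fin (N + 1) := (exists_chart P).choose

/-- a choice of normalised coordinates -/
def cv (P : Projectivization K (Fin (N + 1) → K)) : Fin (N + 1) → K :=
  (exists_chart P).choose_spec.choose

lemma pointIdeal_pow (P : Projectivization K (Fin (N + 1) → K)) (n : ℕ) :
    pointIdeal P ^ n = V (cj P) (cv P) n := by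
  rw [V_eq_pow]
  congr 1
  exact (exists_chart P).choose_spec.choose_spec

lemma mem_fatIdeal {S : Finset (Projectivization K (Fin (N + 1) → K))}
    {mult : Projectivization K (Fin (N + 1) → K) → ℕ} {t : ℕ} {f : MvPolynomial (Fin (N + 1)) K} :
    f ∈ fatIdeal S mult t ↔ ∀ P : S, f ∈ V (cj P.1) (cv P.1) (t * mult P.1) := by
  simp only [fatIdeal, Ideal.mem_iInf, pointIdeal_pow, Subtype.forall]

lemma exists_ne_zero_mem (hN : 1 ≤ N) (S : Finset (Projectivization K (Fin (N + 1) → K)))
    (mult : Projectivization K (Fin (N + 1) → K) → ℕ) (t : ℕ) :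
    ∃ f ∈ fatIdeal S mult t, f ≠ 0 := by
  classical
  have : Nontrivial (Fin (N + 1)) := Fin.nontrivial_iff_two_le.mpr (by omega)
  choose i hi using fun P : Projectivization K (Fin (N + 1) → K) => exists_ne (cj P)
  refine ⟨∏ P : S, (X (i P.1) - C (cv P.1 (i P.1)) * X (cj P.1)) ^ (t * mult P.1), ?_, ?_⟩
  · rw [mem_fatIdeal]
    intro P
    have h1 := V_pow (lin_mem_V (cj P.1) (cv P.1) (hi P.1)) (t * mult P.1)
    rw [mul_one] at h1
    exact Ideal.mem_of_dvd _ (Finset.dvd_prod_of_mem _ (Finset.mem_univ P)) h1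
  · rw [Finset.prod_ne_zero_iff]
    intro P _
    exact pow_ne_zero _ (lin_ne_zero _ _ (hi P.1))

lemma alpha_le {J : Ideal (MvPolynomial (Fin (N + 1)) K)} {f : MvPolynomial (Fin (N + 1)) K}
    (hf : f ∈ J) (h0 : f ≠ 0) : alpha J ≤ f.totalDegree := Nat.sInf_le ⟨f, hf, h0, rfl⟩

lemma exists_alpha (hN : 1 ≤ N) (S : Finset (Projectivization K (Fin (N + 1) → K)))
    (mult : Projectivization K (Fin (N + 1) → K) → ℕ) (t : ℕ) :
    ∃ f ∈ fatIdeal S mult t, f ≠ 0 ∧ f.IsHomogeneous (alpha (fatIdeal S mult t)) := by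
  obtain ⟨f0, hf0, h0⟩ := exists_ne_zero_mem hN S mult t
  obtain ⟨f, hf, hne, hd⟩ := Nat.sInf_mem (s := {d : ℕ | ∃ f ∈ fatIdeal S mult t, f ≠ 0 ∧
    f.totalDegree = d}) ⟨_, f0, hf0, h0, rfl⟩
  have hd' : f.totalDegree = alpha (fatIdeal S mult t) := hd
  obtain ⟨c, hc, hc0⟩ : ∃ c ≤ f.totalDegree, homogeneousComponent c f ≠ 0 := by
    by_contra h
    push Not at h
    apply hne
    rw [← sum_homogeneousComponent f]
    apply Finset.sum_eq_zero
    intro c hc
    exact h c (by rw [Finset.mem_range] at hc; omega)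
  have hmem : homogeneousComponent c f ∈ fatIdeal S mult t := by
    rw [mem_fatIdeal] at hf ⊢
    exact fun P => component_mem_V (hf P) c
  have h1 := alpha_le hmem hc0
  rw [(homogeneousComponent_isHomogeneous c f).totalDegree hc0] at h1
  refine ⟨_, hmem, hc0, ?_⟩
  have : alpha (fatIdeal S mult t) = c := by omega
  rw [this]
  exact homogeneousComponent_isHomogeneous c f

end

end Pool.Agent.Lib.MP_cc5cd7_ag
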