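import Pool.Agent.Lib.MP_cc5cd7_ag.Frob

set_option autoImplicit false
set_option linter.unusedSectionVars false

namespace Pool.Agent.Lib.MP_cc5cd7_ag

open MvPolynomial

noncomputable section

variable {σ : Type*} [Fintype σ] [DecidableEq σ]
variable {k : Type*} [Field k] (p : ℕ) [hp : Fact p.Prime] [CharP k p] [PerfectRing k p]

lemma zero_mem_box {q : ℕ} (hq : q ≠ 0) : (0 : σ →₀ ℕ) ∈ box σ q := by
  rw [mem_box]; intro i; simpa using Nat.pos_of_ne_zero hq

lemma cmp_eq_zero_of_pderiv {g : MvPolynomial σ k} (hg : ∀ i, pderiv i g = 0)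
    {β : σ →₀ ℕ} (hβ : β ∈ box σ (p ^ 1)) (h0 : β ≠ 0) : cmp p 1 β g = 0 := by
  obtain ⟨i, hi⟩ : ∃ i, β i ≠ 0 := by
    by_contra hne
    push Not at hne
    exact h0 (Finsupp.ext hne)
  ext μ
  rw [coeff_zero, coeff_cmp_eq_zero]
  set η := β + p ^ 1 • μ with hη
  have hηi : η i = β i + p * μ i := by simp [hη]
  have e : η - Finsupp.single i 1 + Finsupp.single i 1 = η := by
    rw [tsub_add_cancel_of_le]
    rw [Finsupp.single_le_iff]; omega
  have h1 := coeff_pderiv (i := i) g (η - Finsupp.single i 1)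
  rw [hg i, coeff_zero, e] at h1
  have h2 : (((η - Finsupp.single i 1 : σ →₀ ℕ) i : k) + 1) ≠ 0 := by
    have h3 : (η - Finsupp.single i 1 : σ →₀ ℕ) i + 1 = β i + p * μ i := by
      rw [Finsupp.tsub_apply, Finsupp.single_eq_same]; omega
    have h4 : (((η - Finsupp.single i 1 : σ →₀ ℕ) i : k) + 1) = ((β i + p * μ i : ℕ) : k) := by
      rw [← h3]; push_cast; ring
    rw [h4, Ne, CharP.cast_eq_zero_iff k p]
    intro h5
    have h6 : p ∣ β i := (Nat.dvd_add_left (Dvd.intro _ rfl)).mp h5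
    have h7 := mem_box.mp hβ i
    rw [pow_one] at h7
    exact hi (Nat.eq_zero_of_dvd_of_lt h6 h7)
  exact (mul_eq_zero.mp h1.symm).resolve_right h2

lemma eq_pow_of_pderiv {g : MvPolynomial σ k} (hg : ∀ i, pderiv i g = 0) :
    g = (cmp p 1 0 g) ^ p := by
  conv_lhs => rw [← sum_cmp p 1 g]
  rw [Finset.sum_eq_single 0]
  · rw [pow_one, monomial_zero', C_1, one_mul]
  · intro β hβ h0
    rw [cmp_eq_zero_of_pderiv p hg hβ h0, zero_pow (qne k p 1), mul_zero]
  · intro h; exact absurd (zero_mem_box (qne k p 1)) h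

include hp in
/-- a substitute for differentiation in positive characteristic -/
lemma deriv_step : ∀ (d : ℕ) (g : MvPolynomial σ k), g ≠ 0 → g.IsHomogeneous (d + 1) →
    ∃ g' : MvPolynomial σ k, g' ≠ 0 ∧ g'.IsHomogeneous d ∧
      ∀ (j : σ) (v : σ → k) (n : ℕ), g ∈ V j v (n + 1) → g' ∈ V j v n := by
  intro d
  induction d using Nat.strong_induction_on with
  | _ d ih =>
    intro g h0 hg
    by_cases h : ∃ i, pderiv i g ≠ 0
    · obtain ⟨i, hi⟩ := h
      exact ⟨pderiv i g, hi, by simpa using hg.pderiv (i := i), fun j v n hn => pderiv_mem_V i hn⟩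
    · push Not at h
      have hp2 := hp.out.two_le
      have e := eq_pow_of_pderiv p h
      set u := cmp p 1 0 g with hu
      have hu0 : u ≠ 0 := by
        intro h1
        rw [h1, zero_pow (by omega)] at e
        exact h0 e
      obtain ⟨s, hs⟩ := exists_deg_of_cmp_ne p 1 hg hu0
      have hus : u.IsHomogeneous s := cmp_hom p 1 hg hs
      rw [map_zero, zero_add, pow_one] at hs
      obtain ⟨s, rfl⟩ : ∃ s', s = s' + 1 := by
        rcases s with _ | s
        · omega
        · exact ⟨s, rfl⟩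
      have hsd : s < d := by nlinarith
      obtain ⟨u', hu'0, hu', hV⟩ := ih s hsd u hu0 hus
      refine ⟨u ^ (p - 1) * u', mul_ne_zero (pow_ne_zero _ hu0) hu'0, ?_, ?_⟩
      · have := (hus.pow (p - 1)).mul hu'
        have e2 : (s + 1) * (p - 1) + s = d := by
          obtain ⟨p', rfl⟩ : ∃ p', p = p' + 1 := ⟨p - 1, by omega⟩
          rw [Nat.add_sub_cancel]; nlinarith
        rwa [e2] at this
      · intro j v n hn
        have h1 : u ∈ V j v (n / p + 1) := by
          refine top_mem_V p 1 (zero_mem_box (qne k p 1)) ?_ hn ?_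
          · intro β' hβ' hlt
            apply cmp_eq_zero_of_pderiv p h hβ'
            rintro rfl
            omega
          · intro s' hs'
            rw [map_zero, zero_add, pow_one]
            have := Nat.mul_div_le n p
            have : p * s' ≤ p * (n / p) := Nat.mul_le_mul_left _ (by omega)
            omega
        have h2 := V_mul (V_pow h1 (p - 1)) (hV j v _ h1)
        refine V_anti j v ?_ h2
        have h3 := Nat.div_add_mod n p
        have h4 := Nat.mod_lt n (show 0 < p by omega)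
        obtain ⟨p', rfl⟩ : ∃ p', p = p' + 1 := ⟨p - 1, by omega⟩
        rw [Nat.add_sub_cancel]; nlinarith

include hp in
lemma deriv_iter (c : ℕ) : ∀ (d : ℕ) (g : MvPolynomial σ k), g ≠ 0 → g.IsHomogeneous (d + c) →
    ∃ g' : MvPolynomial σ k, g' ≠ 0 ∧ g'.IsHomogeneous d ∧
      ∀ (j : σ) (v : σ → k) (n : ℕ), g ∈ V j v (n + c) → g' ∈ V j v n := by
  induction c with
  | zero => intro d g h0 hg; exact ⟨g, h0, hg, fun j v n h => h⟩
  | succ c ih =>
    intro d g h0 hg
    obtain ⟨g1, h1, h2, h3⟩ := deriv_step p (d + c) g h0 hg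
    obtain ⟨g2, h4, h5, h6⟩ := ih d g1 h1 h2
    exact ⟨g2, h4, h5, fun j v n h => h6 j v n (h3 j v (n + c) h)⟩

include hp in
/-- the key estimate at a prime power -/
lemma key_estimate {N : ℕ} (hN : Fintype.card σ = N + 2) {ι : Type*} (j : ι → σ)
    (v : ι → σ → k) (μ : ι → ℕ) (i0 : ι) (h0 : 1 ≤ μ i0) (m e D : ℕ) (G : MvPolynomial σ k)
    (hG0 : G ≠ 0) (hG : G.IsHomogeneous D)
    (hV : ∀ i, G ∈ V (j i) (v i) (p ^ e * ((m + N) * μ i))) :
    ∃ (d : ℕ) (g : MvPolynomial σ k), g ≠ 0 ∧ g.IsHomogeneous d ∧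
      (∀ i, g ∈ V (j i) (v i) (m * μ i)) ∧ p ^ e * (d + N) ≤ D := by
  obtain ⟨β, hβ, hne, htop⟩ := exists_top p e hG0
  obtain ⟨s, hs⟩ := exists_deg_of_cmp_ne p e hG hne
  have hhom := cmp_hom p e hG hs
  set q := p ^ e with hq
  have hq0 : 0 < q := Nat.pos_of_ne_zero (qne k p e)
  obtain ⟨t, c, htc, ht, hmem⟩ : ∃ t c, t + c = N ∧ q * t ≤ β.degree ∧
      ∀ i, cmp p e β G ∈ V (j i) (v i) ((m + N) * μ i - t) := by
    by_cases h : β.degree / q ≤ N
    · refine ⟨β.degree / q, N - β.degree / q, by omega, Nat.mul_div_le _ _, fun i => ?_⟩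
      refine top_mem_V p e hβ htop (hV i) fun s' hs' => ?_
      have h1 := Nat.div_add_mod β.degree q
      have h2 := Nat.mod_lt β.degree hq0
      have h3 : q * (s' + β.degree / q + 1) ≤ q * ((m + N) * μ i) :=
        Nat.mul_le_mul_left _ (by omega)
      rw [← hq]
      nlinarith
    · refine ⟨N, 0, rfl, ?_, fun i => ?_⟩
      · have := Nat.mul_div_le β.degree q
        have : q * N ≤ q * (β.degree / q) := Nat.mul_le_mul_left _ (by omega)
        omega
      · refine cmp_mem_V p e hβ (hV i) fun s' hs' => ?_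
        have h3 : q * (s' + N + 1) ≤ q * ((m + N) * μ i) := Nat.mul_le_mul_left _ (by omega)
        rw [← hq, hN]
        obtain ⟨q', hq'⟩ : ∃ q', q = q' + 1 := ⟨q - 1, by omega⟩
        rw [hq'] at h3 ⊢
        have : N + 2 - 1 = N + 1 := rfl
        rw [this, Nat.add_sub_cancel]
        nlinarith
  have hle : ∀ i, 1 ≤ μ i → m * μ i + c ≤ (m + N) * μ i - t := by
    intro i hi
    have : N ≤ N * μ i := Nat.le_mul_of_pos_right _ hi
    rw [add_mul]; omega
  have hcs : c ≤ s := by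
    have := le_of_mem_V hne hhom (hmem i0)
    have := hle i0 h0
    omega
  obtain ⟨d, rfl⟩ : ∃ d, s = d + c := ⟨s - c, by omega⟩
  obtain ⟨g, hg0, hg, hgV⟩ := deriv_iter p c d _ hne hhom
  refine ⟨d, g, hg0, hg, fun i => ?_, ?_⟩
  · rcases Nat.eq_zero_or_pos (μ i) with h | h
    · rw [h, mul_zero, V_zero]; trivial
    · exact hgV _ _ _ (V_anti _ _ (hle i h) (hmem i))
  · rw [← htc, ← hs]; nlinarith

include hp in
/-- the bound over a perfect field of positive characteristic -/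
lemma bound_charP {N : ℕ} (hN : Fintype.card σ = N + 2) {ι : Type*} (j : ι → σ)
    (v : ι → σ → k) (μ : ι → ℕ) (i0 : ι) (h0 : 1 ≤ μ i0) (m n d a : ℕ) (hn : 1 ≤ n)
    (F : MvPolynomial σ k) (hF0 : F ≠ 0) (hF : F.IsHomogeneous d)
    (hV : ∀ i, F ∈ V (j i) (v i) (n * μ i))
    (ha : ∀ (d' : ℕ) (g : MvPolynomial σ k), g ≠ 0 → g.IsHomogeneous d' →
      (∀ i, g ∈ V (j i) (v i) (m * μ i)) → a ≤ d') :
    n * (a + N) ≤ (m + N) * d := by
  by_contra hlt
  push Not at hlt
  obtain ⟨e, he⟩ : ∃ e, n * d < p ^ e := ⟨n * d, Nat.lt_pow_self hp.out.one_lt⟩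
  set q := p ^ e with hq
  set b := q * (m + N) / n + 1 with hb
  have hb1 : q * (m + N) ≤ n * b := by
    have h1 := Nat.div_add_mod (q * (m + N)) n
    have h2 := Nat.mod_lt (q * (m + N)) (show 0 < n by omega)
    rw [hb]; nlinarith
  have hb2 : n * b ≤ q * (m + N) + n := by
    have h1 := Nat.mul_div_le (q * (m + N)) n
    rw [hb]; nlinarith
  obtain ⟨d', g, hg0, hg, hgV, hle⟩ := key_estimate p hN j v μ i0 h0 m e (d * b) (F ^ b)
    (pow_ne_zero _ hF0) (hF.pow b) (by
      intro i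
      refine V_anti _ _ ?_ (V_pow (hV i) b)
      have := Nat.mul_le_mul_right (μ i) hb1
      rw [← hq]
      nlinarith)
  have h1 := ha d' g hg0 hg hgV
  rw [← hq] at hle
  have h2 : q * (a + N) ≤ d * b := le_trans (Nat.mul_le_mul_left _ (by omega)) hle
  have h3 : n * (q * (a + N)) ≤ d * (q * (m + N) + n) := by
    calc n * (q * (a + N)) ≤ n * (d * b) := Nat.mul_le_mul_left _ h2
      _ = d * (n * b) := by ring
      _ ≤ _ := Nat.mul_le_mul_left _ hb2
  have h4 : q * ((m + N) * d + 1) ≤ q * (n * (a + N)) := Nat.mul_le_mul_left _ hlt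
  nlinarith

end

end Pool.Agent.Lib.MP_cc5cd7_ag
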