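import Pool.Agent.Lib.MP_cc5cd7_ag.Basic

set_option autoImplicit false
set_option linter.unusedSectionVars false

namespace Pool.Agent.Lib.MP_cc5cd7_ag

open MvPolynomial

noncomputable section

universe u

lemma int_jacobson : IsJacobsonRing ℤ := by
  rw [isJacobsonRing_iff_prime_eq]
  intro P hP
  by_cases h : P = ⊥
  · subst h
    rw [eq_bot_iff]
    intro x hx
    rw [Ideal.mem_bot]
    by_contra hx0
    obtain ⟨p, hp1, hp⟩ := Nat.exists_infinite_primes (x.natAbs + 1)
    have hmax : (Ideal.span {(p : ℤ)}).IsMaximal :=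
      PrincipalIdealRing.isMaximal_of_irreducible (Nat.prime_iff_prime_int.mp hp).irreducible
    have h1 : x ∈ Ideal.span {(p : ℤ)} := Ideal.mem_sInf.mp hx ⟨bot_le, hmax⟩
    rw [Ideal.mem_span_singleton, Int.natCast_dvd] at h1
    have := Nat.le_of_dvd (Int.natAbs_pos.mpr hx0) h1
    omega
  · have := Ring.DimensionLEOne.maximalOfPrime h hP
    exact Ideal.jacobson_eq_self_of_isMaximal

/-- finitely many elements of a field can be specialised to a perfect field of prime
characteristic -/
lemma exists_spec (K : Type u) [Field K] (T : Set K) (hT : T.Finite) :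
    ∃ (A : Subring K) (_ : ∀ x ∈ T, x ∈ A) (k : Type u) (_ : Field k) (p : ℕ) (_ : Fact p.Prime)
      (_ : CharP k p) (_ : PerfectRing k p), Nonempty (A →+* k) := by
  let B := Algebra.adjoin ℤ T
  have hB : Algebra.FiniteType ℤ B := .adjoin_of_finite hT
  obtain ⟨m, hm⟩ := Ideal.exists_maximal B
  let _ := Ideal.Quotient.field m
  have := int_jacobson
  have hfin := finite_of_finite_type_of_isJacobsonRing ℤ (B ⧸ m)
  obtain ⟨p, hp⟩ := CharP.exists (B ⧸ m)
  have hp0 : p ≠ 0 := by
    rintro rfl
    have := CharP.charP_to_charZero (B ⧸ m)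
    have h1 : IsField ℤ := isField_of_isIntegral_of_isField (R := ℤ) (S := B ⧸ m)
      (algebraMap ℤ (B ⧸ m)).injective_int (Field.toIsField _)
    exact Int.not_isField h1
  have hpp : p.Prime := (CharP.char_is_prime_or_zero (B ⧸ m) p).resolve_right hp0
  have : Fact p.Prime := ⟨hpp⟩
  let k := AlgebraicClosure (B ⧸ m)
  have : CharP k p := inferInstance
  refine ⟨B.toSubring, fun x hx => Algebra.subset_adjoin hx, k, inferInstance, p, inferInstance,
    inferInstance, inferInstance, ⟨?_⟩⟩
  exact (algebraMap (B ⧸ m) k).comp (Ideal.Quotient.mk m)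

lemma exists_ginv {K : Type*} [Field K] {α β : Type*} [Fintype α] [Fintype β] [DecidableEq α]
    [DecidableEq β] (B : Matrix α β K) : ∃ L : Matrix β α K, B * L * B = B := by
  let f := Matrix.toLin' B
  obtain ⟨s, hs⟩ := LinearMap.exists_rightInverse_of_surjective f.rangeRestrict
    (LinearMap.range_rangeRestrict f)
  obtain ⟨g, hg⟩ := LinearMap.exists_extend s
  refine ⟨LinearMap.toMatrix' g, ?_⟩
  apply Matrix.toLin'.injective
  rw [Matrix.toLin'_mul, Matrix.toLin'_mul, Matrix.toLin'_toMatrix']
  apply LinearMap.ext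
  intro x
  have h1 := LinearMap.congr_fun hg ⟨f x, LinearMap.mem_range_self f x⟩
  have h2 := congrArg Subtype.val (LinearMap.congr_fun hs ⟨f x, LinearMap.mem_range_self f x⟩)
  simp only [LinearMap.comp_apply, Submodule.subtype_apply] at h1
  simp only [LinearMap.comp_apply, LinearMap.id_apply, LinearMap.rangeRestrict,
    LinearMap.codRestrict_apply] at h2
  show f (g (f x)) = f x
  rw [h1, h2]

variable {σ : Type*} [Fintype σ] [DecidableEq σ]

/-- monomials of degree `c` -/
def mons (σ : Type*) [Fintype σ] [DecidableEq σ] (c : ℕ) : Finset (σ →₀ ℕ) :=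
  Finset.finsuppAntidiag Finset.univ c

lemma mem_mons {c : ℕ} {d : σ →₀ ℕ} : d ∈ mons σ c ↔ d.degree = c := by
  simp [mons, Finsupp.degree_eq_sum]

variable {A : Type*} [CommRing A]

/-- the form with given coefficients -/
def form (c : ℕ) (x : mons σ c → A) : MvPolynomial σ A := ∑ η : mons σ c, monomial η.1 (x η)

lemma form_hom (c : ℕ) (x : mons σ c → A) : (form c x).IsHomogeneous c :=
  IsHomogeneous.sum _ _ _ fun η _ => isHomogeneous_monomial _ (mem_mons.mp η.2)

lemma coeff_form (c : ℕ) (x : mons σ c → A) (η : mons σ c) : coeff η.1 (form c x) = x η := by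
  rw [form, coeff_sum, Finset.sum_eq_single η]
  · simp
  · intro b _ hb
    rw [coeff_monomial, if_neg]
    intro h; exact hb (Subtype.ext h)
  · intro h; exact absurd (Finset.mem_univ _) h

lemma form_coeff {c : ℕ} {g : MvPolynomial σ A} (hg : g.IsHomogeneous c) :
    form c (fun η => coeff η.1 g) = g := by
  ext d
  by_cases h : d.degree = c
  · exact coeff_form c _ ⟨d, mem_mons.mpr h⟩
  · rw [hg.coeff_eq_zero h, (form_hom c _).coeff_eq_zero h]

lemma map_form {B : Type*} [CommRing B] (ψ : A →+* B) (c : ℕ) (x : mons σ c → A) :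
    map ψ (form c x) = form c fun η => ψ (x η) := by
  simp [form, map_monomial]

lemma form_sum {ι : Type*} (s : Finset ι) (c : ℕ) (a : ι → A) (x : ι → mons σ c → A) :
    form c (fun η => ∑ i ∈ s, x i η * a i) = ∑ i ∈ s, a i • form c (x i) := by
  simp only [form, map_sum, Finset.smul_sum]
  rw [Finset.sum_comm]
  refine Finset.sum_congr rfl fun i _ => Finset.sum_congr rfl fun η _ => ?_
  rw [smul_monomial, smul_eq_mul, mul_comm]

/-- the matrix of the vanishing conditions in degree `c` -/
def cond {ι : Type*} (j : ι → σ) (v : ι → σ → A) (n : ι → ℕ) (c : ℕ) :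
    Matrix (ι × mons σ c) (mons σ c) A :=
  Matrix.of fun r η => if ud (j r.1) r.2.1 < n r.1 then
    coeff r.2.1 (sh (j r.1) (v r.1) (monomial η.1 1)) else 0

lemma cond_map {B : Type*} [CommRing B] (ψ : A →+* B) {ι : Type*} (j : ι → σ) (v : ι → σ → A)
    (n : ι → ℕ) (c : ℕ) :
    (cond j v n c).map ψ = cond j (fun i a => ψ (v i a)) n c := by
  ext r η
  simp only [cond, Matrix.map_apply, Matrix.of_apply]
  split_ifs
  · rw [← coeff_map, map_sh, map_monomial, map_one]
  · exact map_zero ψ

lemma cond_mulVec {ι : Type*} (j : ι → σ) (v : ι → σ → A) (n : ι → ℕ) (c : ℕ)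
    (x : mons σ c → A) (r : ι × mons σ c) :
    (cond j v n c).mulVec x r = if ud (j r.1) r.2.1 < n r.1 then
      coeff r.2.1 (sh (j r.1) (v r.1) (form c x)) else 0 := by
  simp only [Matrix.mulVec, dotProduct, cond, Matrix.of_apply]
  split_ifs
  · rw [form, map_sum, coeff_sum]
    refine Finset.sum_congr rfl fun η _ => ?_
    have : monomial η.1 (x η) = x η • monomial η.1 (1 : A) := by
      rw [smul_monomial, smul_eq_mul, mul_one]
    rw [this, map_smul, coeff_smul, smul_eq_mul, mul_comm]
  · simp

lemma cond_mulVec_eq_zero {ι : Type*} (j : ι → σ) (v : ι → σ → A) (n : ι → ℕ) (c : ℕ)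
    (x : mons σ c → A) :
    (cond j v n c).mulVec x = 0 ↔ ∀ i, form c x ∈ V (j i) (v i) (n i) := by
  constructor
  · intro h i d hd
    by_cases h1 : d.degree = c
    · have := congrFun h (i, ⟨d, mem_mons.mpr h1⟩)
      rw [cond_mulVec, if_pos hd] at this
      exact this
    · exact (sh_hom _ _ (form_hom c x)).coeff_eq_zero h1
  · intro h
    funext r
    rw [cond_mulVec]
    split_ifs with h1
    · exact h r.1 _ h1
    · rfl

/-- a finite family of forms over the subring that spans the space of vanishing forms after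
every specialisation -/
lemma exists_family {K : Type*} [Field K] {ι : Type*} [Fintype ι] (j : ι → σ) (v : ι → σ → K)
    (n : ι → ℕ) (c : ℕ) :
    ∃ T : Set K, T.Finite ∧ ∀ (A : Subring K), (∀ x ∈ T, x ∈ A) → ∀ v' : ι → σ → A,
      (∀ i a, (v' i a : K) = v i a) → ∃ w : mons σ c → MvPolynomial σ A,
        (∀ η, (w η).IsHomogeneous c) ∧ (∀ η i, w η ∈ V (j i) (v' i) (n i)) ∧
        ∀ (k : Type u) [CommRing k] (ψ : A →+* k) (g : MvPolynomial σ k), g.IsHomogeneous c →
          (∀ i, g ∈ V (j i) (fun a => ψ (v' i a)) (n i)) →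
          g = ∑ η : mons σ c, coeff η.1 g • map ψ (w η) := by
  classical
  obtain ⟨L, hL⟩ := exists_ginv (cond j v n c)
  refine ⟨Set.range fun x : mons σ c × (ι × mons σ c) => L x.1 x.2, Set.finite_range _, ?_⟩
  intro A hA v' hv'
  let L' : Matrix (mons σ c) (ι × mons σ c) A :=
    Matrix.of fun a b => ⟨L a b, hA _ ⟨(a, b), rfl⟩⟩
  have hL' : L'.map A.subtype = L := by ext a b; rfl
  have hB : (cond j v' n c).map A.subtype = cond j v n c := by
    rw [cond_map]; congr 1; funext i a; exact hv' i a
  have hBL : cond j v' n c * L' * cond j v' n c = cond j v' n c := by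
    apply Matrix.map_injective A.subtype_injective
    show (_ : Matrix _ _ A).map A.subtype = (_ : Matrix _ _ A).map A.subtype
    rw [Matrix.map_mul, Matrix.map_mul, hB, hL', hL]
  let P : Matrix (mons σ c) (mons σ c) A := 1 - L' * cond j v' n c
  have hP : cond j v' n c * P = 0 := by
    rw [Matrix.mul_sub, Matrix.mul_one, ← Matrix.mul_assoc, hBL, sub_self]
  refine ⟨fun η => form c fun a => P a η, fun η => form_hom c _, ?_, ?_⟩
  · intro η
    rw [← cond_mulVec_eq_zero]
    funext r
    exact congrFun (congrFun hP r) η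
  · intro k _ ψ g hg hV
    rw [← form_coeff hg, ← cond_mulVec_eq_zero, ← cond_map] at hV
    have h1 : (P.map ψ).mulVec (fun η => coeff η.1 g) = fun η => coeff η.1 g := by
      have : P.map ψ = 1 - L'.map ψ * (cond j v' n c).map ψ := by
        rw [← Matrix.map_mul, Matrix.map_sub _ (map_sub ψ), Matrix.map_one _ (map_zero ψ) (map_one ψ)]
      rw [this, Matrix.sub_mulVec, Matrix.one_mulVec, ← Matrix.mulVec_mulVec, hV,
        Matrix.mulVec_zero, sub_zero]
    conv_lhs => rw [← form_coeff hg, ← h1]
    simp only [map_form]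
    rw [← form_sum]
    rfl

lemma exists_lift {K : Type*} [Field K] (A : Subring K) (F : MvPolynomial σ K)
    (h : ∀ x ∈ F.coeffs, x ∈ A) : ∃ F' : MvPolynomial σ A, map A.subtype F' = F := by
  have : F ∈ Set.range (MvPolynomial.map A.subtype) := by
    rw [mem_range_map_iff_coeffs_subset]
    intro x hx
    exact ⟨⟨x, h x hx⟩, rfl⟩
  exact this

end

end Pool.Agent.Lib.MP_cc5cd7_ag
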