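import Pool.Agent.Lib.MP_cc5cd7_ag.ContP
import Pool.Agent.Lib.MP_cc5cd7_ag.Spec
import Pool.Agent.Lib.MP_cc5cd7_ag.Bridge

set_option autoImplicit false
set_option linter.unusedSectionVars false

namespace Pool.Agent.Lib.MP_cc5cd7_ag

open MvPolynomial

noncomputable section

universe u

variable {σ : Type*} [Fintype σ] [DecidableEq σ]

attribute [local instance] MvPolynomial.gradedAlgebra

lemma hom_of_component {A : Type*} [CommRing A] {I : Ideal (MvPolynomial σ A)}
    (h : ∀ f ∈ I, ∀ c, homogeneousComponent c f ∈ I) :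
    I.IsHomogeneous (homogeneousSubmodule σ A) := by
  intro i f hf
  have := h f hf i
  rw [← decomposition.decompose'_apply] at this
  exact this

lemma hom_pow {A : Type*} [CommRing A] {I : Ideal (MvPolynomial σ A)}
    (h : I.IsHomogeneous (homogeneousSubmodule σ A)) (n : ℕ) :
    (I ^ n).IsHomogeneous (homogeneousSubmodule σ A) := by
  induction n with
  | zero => rw [pow_zero, Ideal.one_eq_top]; exact Ideal.IsHomogeneous.top _
  | succ n ih => rw [pow_succ]; exact ih.mul h

lemma hom_vars {A : Type*} [CommRing A] :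
    (idealOfVars σ A).IsHomogeneous (homogeneousSubmodule σ A) := by
  apply Ideal.homogeneous_span
  rintro _ ⟨i, rfl⟩
  exact ⟨1, isHomogeneous_X A i⟩

lemma map_vars {A B : Type*} [CommRing A] [CommRing B] (ψ : A →+* B) :
    (idealOfVars σ A).map (MvPolynomial.map ψ) = idealOfVars σ B := by
  rw [Ideal.map_span, ← Set.range_comp]
  congr 2
  funext i
  simp

lemma form_coeff_eq {A : Type*} [CommRing A] (c : ℕ) (g : MvPolynomial σ A) :
    form c (fun η => coeff η.1 g) = homogeneousComponent c g := by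
  rw [← form_coeff (homogeneousComponent_isHomogeneous c g)]
  congr 1
  funext η
  rw [coeff_homogeneousComponent, if_pos (mem_mons.mp η.2)]

/-- pairing of the degree `c` part with a vector -/
def pair {A : Type*} [CommRing A] (c : ℕ) (y : mons σ c → A) : MvPolynomial σ A →ₗ[A] A where
  toFun g := ∑ η : mons σ c, y η * coeff η.1 g
  map_add' f g := by simp [mul_add, Finset.sum_add_distrib]
  map_smul' a g := by simp [Finset.mul_sum, mul_left_comm]

lemma pair_map {A B : Type*} [CommRing A] [CommRing B] (ψ : A →+* B) (c : ℕ) (y : mons σ c → A)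
    (g : MvPolynomial σ A) : pair c (fun η => ψ (y η)) (map ψ g) = ψ (pair c y g) := by
  simp [pair, coeff_map]

lemma pair_eq {A : Type*} [CommRing A] (Ψ : MvPolynomial σ A →ₗ[A] A) (c : ℕ)
    (g : MvPolynomial σ A) :
    pair c (fun η => Ψ (monomial η.1 1)) g = Ψ (homogeneousComponent c g) := by
  rw [← form_coeff_eq, form, map_sum]
  apply Finset.sum_congr rfl
  intro η _
  have : monomial η.1 (coeff η.1 g) = coeff η.1 g • monomial η.1 (1 : A) := by
    rw [smul_monomial, smul_eq_mul, mul_one]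
  rw [this, map_smul, smul_eq_mul, mul_comm]

lemma pair_map_ideal {A B : Type*} [CommRing A] [CommRing B] (ψ : A →+* B) (c : ℕ)
    (y : mons σ c → A) (I : Ideal (MvPolynomial σ A)) (hI : ∀ g ∈ I, pair c y g = 0) :
    ∀ g ∈ I.map (MvPolynomial.map ψ), pair c (fun η => ψ (y η)) g = 0 := by
  have key : ∀ g ∈ I.map (MvPolynomial.map ψ), ∀ s, pair c (fun η => ψ (y η)) (s * g) = 0 := by
    intro g hg
    rw [Ideal.map] at hg
    induction hg using Submodule.span_induction with
    | mem g hg =>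
      obtain ⟨h, hh, rfl⟩ := hg
      intro s
      induction s using MvPolynomial.induction_on' with
      | monomial η a =>
        have : monomial η a * map ψ h = a • map ψ (monomial η 1 * h) := by
          rw [map_mul, map_monomial, map_one, ← smul_mul_assoc, smul_monomial, smul_eq_mul, mul_one]
        rw [this, map_smul, pair_map, hI _ (I.mul_mem_left _ hh), map_zero, smul_zero]
      | add s t hs ht => rw [add_mul, map_add, hs, ht, add_zero]
    | zero => intro s; rw [mul_zero, map_zero]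
    | add g h _ _ hg hh => intro s; rw [mul_add, map_add, hg, hh, add_zero]
    | smul t g _ hg => intro s; rw [smul_eq_mul, ← mul_assoc]; exact hg _
  intro g hg
  have := key g hg 1
  rwa [one_mul] at this

lemma contain_hom {K : Type u} [Field K] [CharZero K] {N : ℕ}
    (hN : Fintype.card σ = N + 2) (hN1 : 1 ≤ N) {ι : Type*} [Fintype ι] (j : ι → σ)
    (v : ι → σ → K) (μ : ι → ℕ) (i0 : ι) (hμ : ∀ i, 1 ≤ μ i) (r d : ℕ) (hr : 1 ≤ r)
    (F : MvPolynomial σ K) (hF : F.IsHomogeneous d)
    (hV : ∀ i, F ∈ V (j i) (v i) (r * (μ i + N))) :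
    F ∈ idealOfVars σ K ^ r * (⨅ i, V (j i) (v i) (μ i)) ^ r := by
  by_contra hnot
  set J : Ideal (MvPolynomial σ K) := ⨅ i, V (j i) (v i) (μ i) with hJ
  have hJhom : J.IsHomogeneous (homogeneousSubmodule σ K) := by
    apply hom_of_component
    intro f hf c
    rw [hJ, Ideal.mem_iInf] at hf ⊢
    exact fun i => component_mem_V (hf i) c
  have hchom := (hom_pow (hom_vars (σ := σ) (A := K)) r).mul (hom_pow hJhom r)
  obtain ⟨Ψ, hΨ1, hΨ2⟩ := Submodule.exists_le_ker_of_notMem
    (p := (idealOfVars σ K ^ r * J ^ r).restrictScalars K) hnot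
  choose T hT hfam using fun c => exists_family.{u} j v μ c
  obtain ⟨A, hA, k, _, p, hp, _, _, ⟨ψ⟩⟩ := exists_spec K
    ((⋃ c ∈ Set.Iic d, T c) ∪ (Set.range fun x : ι × σ => v x.1 x.2) ∪ (F.coeffs : Set K) ∪
      (Set.range fun η : mons σ d => Ψ (monomial η.1 1)) ∪
      {(Ψ F)⁻¹, (((2 * r * d).factorial : ℕ) : K)⁻¹})
    ((((((Set.finite_Iic d).biUnion fun c _ => hT c).union (Set.finite_range _)).union
      (Finset.finite_toSet _)).union (Set.finite_range _)).union (Set.toFinite _))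
  have hA1 : ∀ c ≤ d, ∀ x ∈ T c, x ∈ A := fun c hc x hx =>
    hA x (Or.inl (Or.inl (Or.inl (Or.inl (Set.mem_biUnion hc hx)))))
  have hA2 : ∀ i a, v i a ∈ A := fun i a =>
    hA _ (Or.inl (Or.inl (Or.inl (Or.inr ⟨(i, a), rfl⟩))))
  have hA3 : ∀ x ∈ F.coeffs, x ∈ A := fun x hx => hA x (Or.inl (Or.inl (Or.inr hx)))
  have hA4 : ∀ η : mons σ d, Ψ (monomial η.1 1) ∈ A := fun η =>
    hA _ (Or.inl (Or.inr ⟨η, rfl⟩))
  have hA5 : (Ψ F)⁻¹ ∈ A := hA _ (Or.inr (Or.inl rfl))
  have hA6 : (((2 * r * d).factorial : ℕ) : K)⁻¹ ∈ A := hA _ (Or.inr (Or.inr rfl))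
  have hpd : 2 * r * d < p := by
    by_contra hle
    have h1 : p ∣ (2 * r * d).factorial := (hp.out.dvd_factorial).mpr (by omega)
    have h2 : (((2 * r * d).factorial : ℕ) : A) * ⟨_, hA6⟩ = 1 := by
      apply A.subtype_injective
      rw [map_mul, map_natCast, map_one]
      exact mul_inv_cancel₀ (Nat.cast_ne_zero.mpr (Nat.factorial_ne_zero _))
    have h3 := congrArg ψ h2
    rw [map_mul, map_natCast, (CharP.cast_eq_zero_iff k p _).mpr h1, zero_mul, map_one] at h3
    exact zero_ne_one h3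
  obtain ⟨v', hv'⟩ : ∃ v' : ι → σ → A, ∀ i a, (v' i a : K) = v i a :=
    ⟨fun i a => ⟨v i a, hA2 i a⟩, fun _ _ => rfl⟩
  have hv'' : ∀ i, (fun a => A.subtype (v' i a)) = v i := fun i => funext fun a => hv' i a
  obtain ⟨y, hy⟩ : ∃ y : mons σ d → A, (fun η => A.subtype (y η)) = fun η => Ψ (monomial η.1 1) :=
    ⟨fun η => ⟨_, hA4 η⟩, rfl⟩
  choose w hw1 hw2 hw3 using fun (c : ℕ) (hc : c ≤ d) => hfam c A (hA1 c hc) v' hv'
  obtain ⟨F', hF'⟩ := exists_lift A F hA3
  have hF'hom : F'.IsHomogeneous d := by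
    apply IsHomogeneous.of_map A.subtype_injective
    rw [hF']; exact hF
  have hF'V : ∀ i, F' ∈ V (j i) (v' i) (r * (μ i + N)) := by
    intro i
    apply mem_V_of_map A.subtype A.subtype_injective
    rw [hF', hv'']; exact hV i
  let J' : Ideal (MvPolynomial σ A) := Ideal.span {g | ∃ c hc η, g = w c hc η}
  have hJ' : J'.map (MvPolynomial.map A.subtype) ≤ J := by
    rw [Ideal.map_span, Ideal.span_le]
    rintro _ ⟨_, ⟨c, hc, η, rfl⟩, rfl⟩
    rw [SetLike.mem_coe, hJ, Ideal.mem_iInf]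
    intro i
    have h4 := map_mem_V A.subtype (hw2 c hc η i)
    rwa [hv''] at h4
  have hmem := contain_charP p hN hN1 j (fun i a => ψ (v' i a)) μ i0 hμ r d hr hpd (map ψ F')
    (hF'hom.map ψ) (fun i => map_mem_V ψ (hF'V i)) (J'.map (MvPolynomial.map ψ)) (by
      intro c hc g hg hgV
      rw [hw3 c hc k ψ g hg hgV]
      apply Ideal.sum_mem
      intro η _
      rw [smul_eq_C_mul]
      exact Ideal.mul_mem_left _ _ (Ideal.mem_map_of_mem _ (Ideal.subset_span ⟨c, hc, η, rfl⟩)))
  rw [← map_vars ψ, ← Ideal.map_pow, ← Ideal.map_pow, ← Ideal.map_mul] at hmem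
  have hpair : ∀ g : MvPolynomial σ A,
      A.subtype (pair d y g) = Ψ (homogeneousComponent d (map A.subtype g)) := by
    intro g
    rw [← pair_map, hy, pair_eq]
  have h0 := pair_map_ideal ψ d y _ (by
    intro g hg
    apply A.subtype_injective
    rw [hpair, map_zero]
    apply hΨ2
    apply homogeneousComponent_mem_of_mem hchom
    have h1 := Ideal.mem_map_of_mem (MvPolynomial.map A.subtype) hg
    rw [Ideal.map_mul, Ideal.map_pow, Ideal.map_pow, map_vars] at h1
    exact Ideal.mul_mono_right (Ideal.pow_right_mono hJ' r) h1) _ hmem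
  rw [pair_map] at h0
  have h2 : pair d y F' * ⟨_, hA5⟩ = 1 := by
    apply A.subtype_injective
    rw [map_mul, hpair, hF', homogeneousComponent_eq_self hF, map_one]
    exact mul_inv_cancel₀ hΨ1
  have h3 := congrArg ψ h2
  rw [map_mul, h0, zero_mul, map_one] at h3
  exact zero_ne_one h3

lemma contain_char0 {K : Type u} [Field K] [CharZero K] {N : ℕ}
    (hN : Fintype.card σ = N + 2) (hN1 : 1 ≤ N) {ι : Type*} [Fintype ι] (j : ι → σ)
    (v : ι → σ → K) (μ : ι → ℕ) (i0 : ι) (hμ : ∀ i, 1 ≤ μ i) (r : ℕ) (hr : 1 ≤ r)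
    (F : MvPolynomial σ K) (hV : ∀ i, F ∈ V (j i) (v i) (r * (μ i + N))) :
    F ∈ idealOfVars σ K ^ r * (⨅ i, V (j i) (v i) (μ i)) ^ r := by
  rw [← sum_homogeneousComponent F]
  apply Ideal.sum_mem
  intro c _
  exact contain_hom hN hN1 j v μ i0 hμ r c hr _ (homogeneousComponent_isHomogeneous c F)
    fun i => component_mem_V (hV i) c

/-- Euler: one more order of vanishing gives one more factor of the irrelevant ideal -/
lemma euler_step {K : Type u} [Field K] [CharZero K] {ι : Type*} (j : ι → σ)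
    (v : ι → σ → K) (μ : ι → ℕ) (i0 : ι) :
    (⨅ i, V (j i) (v i) (μ i + 1)) ≤ idealOfVars σ K * ⨅ i, V (j i) (v i) (μ i) := by
  intro f hf
  rw [Ideal.mem_iInf] at hf
  rw [← sum_homogeneousComponent f]
  apply Ideal.sum_mem
  intro c _
  have h1 := fun i => component_mem_V (hf i) c
  by_cases h0 : homogeneousComponent c f = 0
  · rw [h0]; exact Ideal.zero_mem _
  have h2 := le_of_mem_V h0 (homogeneousComponent_isHomogeneous c f) (h1 i0)
  refine euler_mem (homogeneousComponent_isHomogeneous c f) (Nat.cast_ne_zero.mpr (by omega)) ?_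
  intro l
  rw [Ideal.mem_iInf]
  exact fun i => pderiv_mem_V l (h1 i)

lemma euler_iter {K : Type u} [Field K] [CharZero K] {ι : Type*} (j : ι → σ)
    (v : ι → σ → K) (μ : ι → ℕ) (i0 : ι) (n : ℕ) :
    (⨅ i, V (j i) (v i) (μ i + n)) ≤ idealOfVars σ K ^ n * ⨅ i, V (j i) (v i) (μ i) := by
  induction n with
  | zero => simp
  | succ n ih =>
    refine (euler_step j v (fun i => μ i + n) i0).trans ?_
    rw [pow_succ', mul_assoc]
    exact Ideal.mul_mono_right ih

end

end Pool.Agent.Lib.MP_cc5cd7_ag
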