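import Pool.Agent.Lib.MP_cc5cd7_ag.Level

set_option autoImplicit false
set_option linter.unusedSectionVars false

namespace Pool.Agent.Lib.MP_cc5cd7_ag

open MvPolynomial

noncomputable section

variable {σ : Type*} [Fintype σ] [DecidableEq σ]
variable {k : Type*} [Field k] (p : ℕ) [hp : Fact p.Prime] [CharP k p] [PerfectRing k p]

lemma frob_vars_le :
    (idealOfVars σ k).map (frobenius (MvPolynomial σ k) p) ≤ idealOfVars σ k ^ p := by
  rw [Ideal.map_span, Ideal.span_le]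
  rintro _ ⟨_, ⟨i, rfl⟩, rfl⟩
  rw [frobenius_def]
  exact Ideal.pow_mem_pow (X_mem_vars i) p

lemma descend {I : Ideal (MvPolynomial σ k)} {F : MvPolynomial σ k} {d b n : ℕ} (hF0 : F ≠ 0)
    (hF : F.IsHomogeneous d) (hb : d * b < p)
    (h : F ^ (p + b) ∈ idealOfVars σ k ^ (p * n) * I.map (frobenius (MvPolynomial σ k) p)) :
    F ∈ idealOfVars σ k ^ n * I := by
  obtain ⟨β, hβ⟩ := ne_zero_iff.mp (pow_ne_zero b hF0)
  have hdeg : β.degree = d * b := by
    by_contra hne; exact hβ ((hF.pow b).coeff_eq_zero hne)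
  have h1 := cmp_mem_of_frob p (β := β) (by omega) h
  have e : F ^ (p + b) = F ^ b * F ^ p ^ 1 := by rw [pow_one]; ring
  rw [e, cmp_mul_pow p 1 (mem_box_of_degree_lt (by rw [pow_one]; omega))] at h1
  have h2 : (cmp p 1 β (F ^ b)).IsHomogeneous 0 := cmp_hom p 1 (hF.pow b) (by omega)
  rw [← totalDegree_zero_iff_isHomogeneous, totalDegree_eq_zero_iff_eq_C] at h2
  have h3 : coeff 0 (cmp p 1 β (F ^ b)) ≠ 0 := by
    intro h4
    have := coeff_zero_cmp_pow p 1 β (F ^ b)
    rw [h4, zero_pow (qne k p 1)] at this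
    exact hβ this.symm
  rw [h2] at h1
  have h5 := Ideal.mul_mem_left _ (C (coeff 0 (cmp p 1 β (F ^ b)))⁻¹) h1
  rwa [← mul_assoc, ← map_mul, inv_mul_cancel₀ h3, C_1, one_mul] at h5

include hp in
lemma contain_charP {N : ℕ} (hN : Fintype.card σ = N + 2) (hN1 : 1 ≤ N) {ι : Type*} (j : ι → σ)
    (v : ι → σ → k) (μ : ι → ℕ) (i0 : ι) (hμ : ∀ i, 1 ≤ μ i) (r d : ℕ) (hr : 1 ≤ r)
    (hpd : 2 * r * d < p) (F : MvPolynomial σ k) (hF : F.IsHomogeneous d)
    (hV : ∀ i, F ∈ V (j i) (v i) (r * (μ i + N))) (I : Ideal (MvPolynomial σ k))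
    (hI : ∀ e ≤ d, ∀ g : MvPolynomial σ k, g.IsHomogeneous e →
      (∀ i, g ∈ V (j i) (v i) (μ i)) → g ∈ I) :
    F ∈ idealOfVars σ k ^ r * I ^ r := by
  by_cases hF0 : F = 0
  · rw [hF0]; exact Ideal.zero_mem _
  have hd : r * (μ i0 + N) ≤ d := le_of_mem_V hF0 hF (hV i0)
  have hd2 : 2 ≤ d := by have := hμ i0; nlinarith
  obtain ⟨d, rfl⟩ : ∃ d', d = d' + 1 := ⟨d - 1, by omega⟩
  have hp0 : 0 < p := hp.out.pos
  obtain ⟨a, b, hab, hb⟩ : ∃ a b, (a + 1) * r = p + b ∧ b < r := by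
    refine ⟨(p - 1) / r, r - 1 - (p - 1) % r, ?_, by omega⟩
    have h1 := Nat.div_add_mod (p - 1) r
    have h2 := Nat.mod_lt (p - 1) (show 0 < r by omega)
    rw [add_mul, mul_comm ((p - 1) / r) r]
    omega
  have hap : a + 1 ≤ p := by
    by_contra hlt
    have : (p + 1) * r ≤ (a + 1) * r := Nat.mul_le_mul_right _ (by omega)
    nlinarith
  set G := F ^ (a + 1) with hG
  have hGhom : G.IsHomogeneous ((d + 1) * (a + 1)) := hF.pow _
  have hGV : ∀ i, G ∈ V (j i) (v i) (p * (μ i + N)) := by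
    intro i
    refine V_anti _ _ ?_ (V_pow (hV i) (a + 1))
    rw [← mul_assoc, hab]
    exact Nat.mul_le_mul_right _ (by omega)
  have hdeg : ∀ β, cmp p 1 β G ≠ 0 → ∃ s, s ≤ d + 1 ∧ β.degree + p * s = (d + 1) * (a + 1) ∧
      (cmp p 1 β G).IsHomogeneous s := by
    intro β hβ
    obtain ⟨s, hs⟩ := exists_deg_of_cmp_ne p 1 hGhom hβ
    refine ⟨s, ?_, by rwa [pow_one] at hs, cmp_hom p 1 hGhom hs⟩
    rw [pow_one] at hs
    by_contra hlt
    have h1 : p * (d + 2) ≤ p * s := Nat.mul_le_mul_left _ (by omega)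
    have h2 : (d + 1) * (a + 1) ≤ (d + 1) * p := Nat.mul_le_mul_left _ hap
    nlinarith
  have hcomp : ∀ β ∈ box σ (p ^ 1), cmp p 1 β G ∈ I := by
    intro β hβ
    by_cases h0 : cmp p 1 β G = 0
    · rw [h0]; exact I.zero_mem
    obtain ⟨s, hs, -, hhom⟩ := hdeg β h0
    refine hI s hs _ hhom fun i => cmp_mem_V p 1 hβ (hGV i) fun s' hs' => ?_
    rw [hN, pow_one]
    have h3 : p * (s' + N + 1) ≤ p * (μ i + N) := Nat.mul_le_mul_left _ (by omega)
    obtain ⟨q', hq'⟩ : ∃ q', p = q' + 1 := ⟨p - 1, by omega⟩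
    have e1 : N + 2 - 1 = N + 1 := rfl
    have e2 : p - 1 = q' := by omega
    rw [e1, e2]
    nlinarith
  have hlev : ∀ β, β.degree < p → cmp p 1 β G ∈ idealOfVars σ k * I := by
    intro β hβ
    by_cases h0 : cmp p 1 β G = 0
    · rw [h0]; exact Ideal.zero_mem _
    obtain ⟨s, hs, hs2, hhom⟩ := hdeg β h0
    by_contra hnot
    have h1 : r * β.degree + p * (r * s) = (p + b) * (d + 1) := by
      rw [← hab]
      calc r * β.degree + p * (r * s) = r * (β.degree + p * s) := by ring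
        _ = _ := by rw [hs2]; ring
    have h2 : d + 1 < r * s + r := by
      by_contra hle
      have h3 : p * (r * s + r) ≤ p * (d + 1) := Nat.mul_le_mul_left _ (by omega)
      have h4 : r * (β.degree + 1) ≤ r * p := Nat.mul_le_mul_left _ hβ
      nlinarith
    have h3 : β.degree + d < p := by
      by_contra hle
      have h4 : r * p ≤ r * (β.degree + d) := Nat.mul_le_mul_left _ (by omega)
      have h5 : p * (d + 2) ≤ p * (r * s + r) := Nat.mul_le_mul_left _ (by omega)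
      have h6 : b * (d + 1) ≤ r * (d + 1) := Nat.mul_le_mul_right _ (by omega)
      nlinarith
    have htop := level_zero_top p hF a hcomp h3 hnot
    have hβb : β ∈ box σ (p ^ 1) := mem_box_of_degree_lt (by rw [pow_one]; exact hβ)
    have h4 : ∀ i, cmp p 1 β G ∈ V (j i) (v i) (μ i + N) := by
      intro i
      refine top_mem_V p 1 hβb htop (hGV i) fun s' hs' => ?_
      rw [pow_one]
      have h5 : p * (s' + 1) ≤ p * (μ i + N) := Nat.mul_le_mul_left _ hs'
      nlinarith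
    have h5 := le_of_mem_V h0 hhom (h4 i0)
    apply hnot
    refine euler_mem hhom ?_ fun l => ?_
    · rw [Ne, CharP.cast_eq_zero_iff k p]
      intro h6
      have h7 := Nat.le_of_dvd (by omega) h6
      nlinarith
    · refine hI (s - 1) (by omega) _ hhom.pderiv fun i => pderiv_mem_V l ?_
      exact V_anti _ _ (by omega) (h4 i)
  have hGmem : G ∈ idealOfVars σ k ^ p * I.map (frobenius (MvPolynomial σ k) p) := by
    rw [← sum_cmp p 1 G]
    apply Ideal.sum_mem
    intro β hβ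
    rw [pow_one]
    by_cases h : β.degree < p
    · apply Ideal.mul_mem_left
      have h1 := Ideal.mem_map_of_mem (frobenius (MvPolynomial σ k) p) (hlev β h)
      rw [Ideal.map_mul, frobenius_def] at h1
      exact Ideal.mul_mono_left (frob_vars_le p) h1
    · refine Ideal.mul_mem_mul (monomial_mem_vars_pow (by omega) 1) ?_
      have h1 := Ideal.mem_map_of_mem (frobenius (MvPolynomial σ k) p) (hcomp β hβ)
      rwa [frobenius_def] at h1
  have hGr := Ideal.pow_mem_pow hGmem r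
  rw [mul_pow, ← pow_mul, ← Ideal.map_pow, hG, ← pow_mul, hab] at hGr
  refine descend p hF0 hF ?_ hGr
  nlinarith

end

end Pool.Agent.Lib.MP_cc5cd7_ag
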