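import Pool.Agent.Lib.MP_cc5cd7_ag.CharP
import Pool.Agent.Lib.MP_cc5cd7_ag.Spec
import Pool.Agent.Lib.MP_cc5cd7_ag.Bridge

set_option autoImplicit false
set_option linter.unusedSectionVars false

namespace Pool.Agent.Lib.MP_cc5cd7_ag

open MvPolynomial Filter Topology

noncomputable section

universe u

lemma bound_field {σ : Type*} [Fintype σ] [DecidableEq σ] {K : Type u} [Field K] {N : ℕ}
    (hN : Fintype.card σ = N + 2) {ι : Type*} [Fintype ι] (j : ι → σ)
    (v : ι → σ → K) (μ : ι → ℕ) (i0 : ι) (h0 : 1 ≤ μ i0) (m n d a : ℕ) (hn : 1 ≤ n)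
    (F : MvPolynomial σ K) (hF0 : F ≠ 0) (hF : F.IsHomogeneous d)
    (hV : ∀ i, F ∈ V (j i) (v i) (n * μ i))
    (ha : ∀ (d' : ℕ) (g : MvPolynomial σ K), g ≠ 0 → g.IsHomogeneous d' →
      (∀ i, g ∈ V (j i) (v i) (m * μ i)) → a ≤ d') :
    n * (a + N) ≤ (m + N) * d := by
  obtain ⟨T, hT, hfam⟩ := exists_family.{u} j v (fun i => m * μ i) (a - 1)
  obtain ⟨d0, hd0⟩ := ne_zero_iff.mp hF0
  obtain ⟨A, hA, k, _, p, _, _, _, ⟨ψ⟩⟩ := exists_spec K
    (T ∪ (Set.range fun x : ι × σ => v x.1 x.2) ∪ (F.coeffs : Set K) ∪ {(coeff d0 F)⁻¹})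
    (((hT.union (Set.finite_range _)).union (Finset.finite_toSet _)).union (Set.finite_singleton _))
  let v' : ι → σ → A := fun i a => ⟨v i a, hA _ (Or.inl (Or.inl (Or.inr ⟨(i, a), rfl⟩)))⟩
  obtain ⟨w, hw1, hw2, hw3⟩ := hfam A (fun x hx => hA x (Or.inl (Or.inl (Or.inl hx)))) v'
    (fun _ _ => rfl)
  obtain ⟨F', hF'⟩ := exists_lift A F (fun x hx => hA x (Or.inl (Or.inr hx)))
  have hF'hom : F'.IsHomogeneous d := by
    apply IsHomogeneous.of_map A.subtype_injective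
    rw [hF']; exact hF
  have hF'V : ∀ i, F' ∈ V (j i) (v' i) (n * μ i) := by
    intro i
    apply mem_V_of_map A.subtype A.subtype_injective
    rw [hF']; exact hV i
  have hF'0 : map ψ F' ≠ 0 := by
    intro h
    have h1 : ψ (coeff d0 F') = 0 := by rw [← coeff_map, h, coeff_zero]
    have h2 : coeff d0 F' * ⟨(coeff d0 F)⁻¹, hA _ (Or.inr rfl)⟩ = 1 := by
      apply A.subtype_injective
      rw [map_mul, ← coeff_map, hF', map_one]
      exact mul_inv_cancel₀ hd0
    have h3 := congrArg ψ h2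
    rw [map_mul, h1, zero_mul, map_one] at h3
    exact zero_ne_one h3
  refine bound_charP p hN j (fun i a => ψ (v' i a)) μ i0 h0 m n d a hn (map ψ F') hF'0
    (hF'hom.map ψ) (fun i => map_mem_V ψ (hF'V i)) ?_
  intro d' g hg0 hg hgV
  by_contra hlt
  have hw0 : ∀ η, w η = 0 := by
    intro η
    by_contra hne
    have h1 : map A.subtype (w η) ≠ 0 := fun h =>
      hne (map_injective A.subtype A.subtype_injective (by rw [h, map_zero]))
    have h3 : ∀ i, map A.subtype (w η) ∈ V (j i) (v i) (m * μ i) := by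
      intro i
      have h4 := map_mem_V A.subtype (hw2 η i)
      have h5 : (fun a => A.subtype (v' i a)) = v i := funext fun a => rfl
      rwa [h5] at h4
    have := ha _ _ h1 ((hw1 η).map _) h3
    omega
  have h2 := hw3 k ψ (g * X (j i0) ^ (a - 1 - d')) (by
    have := hg.mul (isHomogeneous_X_pow (R := k) (j i0) (a - 1 - d'))
    rwa [show d' + (a - 1 - d') = a - 1 by omega] at this)
    (fun i => Ideal.mul_mem_right _ _ (hgV i))
  simp only [hw0, map_zero, smul_zero, Finset.sum_const_zero] at h2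
  exact mul_ne_zero hg0 (pow_ne_zero _ (X_ne_zero _)) h2

variable {K : Type u} [Field K] {N : ℕ}

lemma alpha_bound (hN : 1 ≤ N) (S : Finset (Projectivization K (Fin (N + 1) → K)))
    (mult : Projectivization K (Fin (N + 1) → K) → ℕ) (hS : ∃ P ∈ S, 1 ≤ mult P)
    (m n : ℕ) (hn : 1 ≤ n) :
    n * (alpha (fatIdeal S mult m) + (N - 1)) ≤ (m + (N - 1)) * alpha (fatIdeal S mult n) := by
  obtain ⟨P0, hP0, h1⟩ := hS
  obtain ⟨F, hF, hF0, hFh⟩ := exists_alpha hN S mult n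
  refine bound_field (σ := Fin (N + 1)) (by rw [Fintype.card_fin]; omega)
    (fun P : S => cj P.1) (fun P : S => cv P.1) (fun P : S => mult P.1) ⟨P0, hP0⟩ h1 m n _ _ hn
    F hF0 hFh (mem_fatIdeal.mp hF) ?_
  intro d' g hg0 hg hgV
  have := alpha_le (mem_fatIdeal.mpr hgV) hg0
  rwa [hg.totalDegree hg0] at this

lemma alpha_subadd (hN : 1 ≤ N) (S : Finset (Projectivization K (Fin (N + 1) → K)))
    (mult : Projectivization K (Fin (N + 1) → K) → ℕ) :
    Subadditive fun t => (alpha (fatIdeal S mult t) : ℝ) := by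
  intro a b
  obtain ⟨F, hF, hF0, hFh⟩ := exists_alpha hN S mult a
  obtain ⟨G, hG, hG0, hGh⟩ := exists_alpha hN S mult b
  have h1 : F * G ∈ fatIdeal S mult (a + b) := by
    rw [mem_fatIdeal] at hF hG ⊢
    intro P
    rw [add_mul]
    exact V_mul (hF P) (hG P)
  have h2 := alpha_le h1 (mul_ne_zero hF0 hG0)
  rw [(hFh.mul hGh).totalDegree (mul_ne_zero hF0 hG0)] at h2
  beta_reduce
  exact_mod_cast h2

theorem demailly (hN : 1 ≤ N) (S : Finset (Projectivization K (Fin (N + 1) → K)))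
    (mult : Projectivization K (Fin (N + 1) → K) → ℕ) (hS : ∃ P ∈ S, 1 ≤ mult P) :
    ∃ w : ℝ, Tendsto (fun t : ℕ => (alpha (fatIdeal S mult t) : ℝ) / t) atTop (𝓝 w) ∧
      (∀ t : ℕ, 1 ≤ t → w ≤ (alpha (fatIdeal S mult t) : ℝ) / t) ∧
      ∀ m : ℕ, 1 ≤ m →
        ((alpha (fatIdeal S mult m) : ℝ) + N - 1) / (m + N - 1) ≤ w := by
  have hsub := alpha_subadd hN S mult
  have hbdd : BddBelow (Set.range fun n : ℕ => (alpha (fatIdeal S mult n) : ℝ) / n) := by
    refine ⟨0, ?_⟩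
    rintro _ ⟨n, rfl⟩
    positivity
  refine ⟨hsub.lim, hsub.tendsto_lim hbdd, fun t ht => hsub.lim_le_div hbdd (by omega), ?_⟩
  intro m hm
  refine ge_of_tendsto (hsub.tendsto_lim hbdd) ?_
  filter_upwards [eventually_ge_atTop 1] with n hn
  have h1 := alpha_bound hN S mult hS m n hn
  obtain ⟨N', rfl⟩ : ∃ N', N = N' + 1 := ⟨N - 1, by omega⟩
  rw [Nat.add_sub_cancel] at h1
  have h2 : (n : ℝ) * (alpha (fatIdeal S mult m) + N') ≤
      (m + N') * alpha (fatIdeal S mult n) := by exact_mod_cast h1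
  have hm' : (1 : ℝ) ≤ m := by exact_mod_cast hm
  have hn' : (1 : ℝ) ≤ n := by exact_mod_cast hn
  have hN' : (0 : ℝ) ≤ N' := Nat.cast_nonneg _
  push_cast
  rw [div_le_div_iff₀ (by linarith) (by linarith)]
  nlinarith

end

end Pool.Agent.Lib.MP_cc5cd7_ag
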