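import Pool.Agent.Lib.MP_cc5cd7_ag.Cont0

set_option autoImplicit false
set_option linter.unusedSectionVars false

namespace Pool.Agent.Lib.MP_cc5cd7_ag

open MvPolynomial

noncomputable section

universe u

variable {K : Type u} [Field K] {N : ℕ}

lemma fatIdeal_eq (S : Finset (Projectivization K (Fin (N + 1) → K)))
    (mult : Projectivization K (Fin (N + 1) → K) → ℕ) (t : ℕ) :
    fatIdeal S mult t = ⨅ P : S, V (cj P.1) (cv P.1) (t * mult P.1) := by
  ext f
  rw [mem_fatIdeal, Ideal.mem_iInf]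

theorem containment [CharZero K] (hN : 2 ≤ N)
    (S : Finset (Projectivization K (Fin (N + 1) → K))) (hS : S.Nonempty)
    (mult : Projectivization K (Fin (N + 1) → K) → ℕ) (c : ℕ) (hc : 1 ≤ c)
    (hmult : ∀ P ∈ S, c ≤ mult P) (r m : ℕ) (hr : 1 ≤ r) (hm : 1 ≤ m) :
    fatIdeal S mult (r * (m + N - 1)) ≤
      Ideal.span (Set.range X) ^ (r * ((N - 1) * (c - 1) + 1)) * fatIdeal S mult m ^ r := by
  obtain ⟨P0, hP0⟩ := hS
  obtain ⟨n, rfl⟩ : ∃ n, N = n + 1 := ⟨N - 1, by omega⟩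
  obtain ⟨c, rfl⟩ : ∃ c', c = c' + 1 := ⟨c - 1, by omega⟩
  intro F hF
  rw [mem_fatIdeal] at hF
  have h1 := contain_char0 (σ := Fin (n + 1 + 1)) (N := n) (by rw [Fintype.card_fin])
    (by omega) (fun P : S => cj P.1) (fun P : S => cv P.1) (fun P : S => m * mult P.1 + n * c)
    ⟨P0, hP0⟩ (fun P => by
      have := hmult P.1 P.2
      nlinarith) r hr F (fun P => by
      refine V_anti _ _ ?_ (hF P)
      have h2 := hmult P.1 P.2
      have h3 : n * (c + 1) ≤ n * mult P.1 := Nat.mul_le_mul_left _ h2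
      have e : m + (n + 1) - 1 = m + n := by omega
      rw [e, mul_assoc]
      apply Nat.mul_le_mul_left
      nlinarith)
  have h2 := Ideal.pow_right_mono (euler_iter (fun P : S => cj P.1) (fun P : S => cv P.1)
    (fun P : S => m * mult P.1) ⟨P0, hP0⟩ (n * c)) r
  have h3 := Ideal.mul_mono_right (I := idealOfVars (Fin (n + 1 + 1)) K ^ r) h2 h1
  rw [mul_pow, ← pow_mul, ← mul_assoc, ← pow_add, ← fatIdeal_eq] at h3
  have e : r * ((n + 1 - 1) * (c + 1 - 1) + 1) = r + n * c * r := by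
    rw [Nat.add_sub_cancel, Nat.add_sub_cancel]; ring
  rw [e]
  exact h3

end

end Pool.Agent.Lib.MP_cc5cd7_ag
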