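import Pool.Agent.Lib.MP_cc5cd7_ag.Basic

set_option autoImplicit false
set_option linter.unusedSectionVars false

namespace Pool.Agent.Lib.MP_cc5cd7_ag

open MvPolynomial

noncomputable section

variable {σ : Type*} [Fintype σ] [DecidableEq σ]

lemma shift_inj {q : ℕ} (hq : q ≠ 0) (β : σ →₀ ℕ) :
    Function.Injective fun μ : σ →₀ ℕ => β + q • μ := by
  intro a b h
  ext i
  have := DFunLike.congr_fun h i
  simp only [Finsupp.add_apply, Finsupp.smul_apply, smul_eq_mul, add_right_inj] at this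
  exact Nat.eq_of_mul_eq_mul_left (Nat.pos_of_ne_zero hq) this

/-- exponent vectors with all entries below `q` -/
def box (σ : Type*) [Fintype σ] [DecidableEq σ] (q : ℕ) : Finset (σ →₀ ℕ) :=
  (Fintype.piFinset fun _ : σ => Finset.range q).map Finsupp.equivFunOnFinite.symm.toEmbedding

lemma mem_box {q : ℕ} {β : σ →₀ ℕ} : β ∈ box σ q ↔ ∀ i, β i < q := by
  simp only [box, Finset.mem_map_equiv, Equiv.symm_symm, Fintype.mem_piFinset, Finset.mem_range]
  rfl

lemma divmod_unique {q : ℕ} {β β' μ μ' : σ →₀ ℕ} (hβ : β ∈ box σ q) (hβ' : β' ∈ box σ q)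
    (h : β + q • μ = β' + q • μ') : β = β' ∧ μ = μ' := by
  rw [mem_box] at hβ hβ'
  have key : ∀ i, β i = β' i ∧ μ i = μ' i := by
    intro i
    have h1 := DFunLike.congr_fun h i
    simp only [Finsupp.add_apply, Finsupp.smul_apply, smul_eq_mul] at h1
    have h2 := hβ i
    have h3 := hβ' i
    have h4 : β i = β' i := by
      have e1 : (β i + q * μ i) % q = β i := by
        rw [Nat.add_mul_mod_self_left, Nat.mod_eq_of_lt h2]
      have e2 : (β' i + q * μ' i) % q = β' i := by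
        rw [Nat.add_mul_mod_self_left, Nat.mod_eq_of_lt h3]
      rw [← e1, ← e2, h1]
    refine ⟨h4, ?_⟩
    rw [h4, add_right_inj] at h1
    exact Nat.eq_of_mul_eq_mul_left (by omega) h1
  exact ⟨Finsupp.ext fun i => (key i).1, Finsupp.ext fun i => (key i).2⟩

lemma exists_divmod {q : ℕ} (hq : q ≠ 0) (η : σ →₀ ℕ) :
    ∃ β ∈ box σ q, ∃ μ, η = β + q • μ := by
  refine ⟨η.mapRange (· % q) (by simp), ?_, η.mapRange (· / q) (by simp), ?_⟩
  · rw [mem_box]; intro i
    rw [Finsupp.mapRange_apply]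
    exact Nat.mod_lt _ (Nat.pos_of_ne_zero hq)
  · ext i
    simp [Nat.mod_add_div]

lemma degree_shift (q : ℕ) (β μ : σ →₀ ℕ) :
    (β + q • μ).degree = β.degree + q * μ.degree := by
  rw [map_add, map_nsmul, smul_eq_mul]

section Ring

variable {A : Type*} [CommRing A]

/-- the coefficient of `x ^ β` when the ring is seen as a module over `A[x ^ q]` -/
def ctr {q : ℕ} (hq : q ≠ 0) (β : σ →₀ ℕ) (G : MvPolynomial σ A) : MvPolynomial σ A :=
  AddMonoidAlgebra.ofCoeff (Finsupp.comapDomain (fun μ : σ →₀ ℕ => β + q • μ)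
    (AddMonoidAlgebra.coeff G) (shift_inj hq β).injOn)

lemma coeff_ctr {q : ℕ} (hq : q ≠ 0) (β μ : σ →₀ ℕ) (G : MvPolynomial σ A) :
    coeff μ (ctr hq β G) = coeff (β + q • μ) G := rfl

lemma ctr_add {q : ℕ} (hq : q ≠ 0) (β : σ →₀ ℕ) (F G : MvPolynomial σ A) :
    ctr hq β (F + G) = ctr hq β F + ctr hq β G := by
  ext μ; simp [coeff_ctr]

lemma ctr_zero {q : ℕ} (hq : q ≠ 0) (β : σ →₀ ℕ) : ctr hq β (0 : MvPolynomial σ A) = 0 := by
  ext μ; simp [coeff_ctr]

lemma ctr_mul_expand {q : ℕ} (hq : q ≠ 0) {β : σ →₀ ℕ} (hβ : β ∈ box σ q)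
    (f h : MvPolynomial σ A) : ctr hq β (f * expand q h) = ctr hq β f * h := by
  rw [mem_box] at hβ
  induction h using MvPolynomial.induction_on' with
  | add a b ha hb => rw [map_add, mul_add, ctr_add, ha, hb, mul_add]
  | monomial ν a =>
    ext μ
    rw [expand_monomial, coeff_ctr, coeff_mul_monomial', coeff_mul_monomial', coeff_ctr]
    have hiff : q • ν ≤ β + q • μ ↔ ν ≤ μ := by
      constructor
      · intro h i
        have h1 := h i
        simp only [Finsupp.add_apply, Finsupp.smul_apply, smul_eq_mul] at h1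
        have h2 := hβ i
        by_contra hlt
        have h3 : μ i + 1 ≤ ν i := by
          have : ¬ ν i ≤ μ i := hlt
          omega
        have := Nat.mul_le_mul_left q h3
        rw [mul_add] at this
        omega
      · intro h i
        have h1 : ν i ≤ μ i := h i
        simp only [Finsupp.add_apply, Finsupp.smul_apply, smul_eq_mul]
        have := Nat.mul_le_mul_left q h1
        omega
    by_cases h : ν ≤ μ
    · rw [if_pos h, if_pos (hiff.mpr h)]
      congr 2
      ext i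
      have h1 : ν i ≤ μ i := h i
      simp only [Finsupp.add_apply, Finsupp.smul_apply, smul_eq_mul, Finsupp.tsub_apply]
      have := Nat.mul_le_mul_left q h1
      rw [Nat.mul_sub]
      omega
    · rw [if_neg h, if_neg (fun h' => h (hiff.mp h'))]

lemma ctr_monomial {q : ℕ} (hq : q ≠ 0) {β β' : σ →₀ ℕ} (hβ : β ∈ box σ q) (hβ' : β' ∈ box σ q)
    (μ : σ →₀ ℕ) (a : A) :
    ctr hq β (monomial (β' + q • μ) a) = if β = β' then monomial μ a else 0 := by
  ext ν
  rw [coeff_ctr, coeff_monomial]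
  by_cases h : β = β'
  · subst h
    rw [if_pos rfl, coeff_monomial]
    by_cases h2 : μ = ν
    · simp [h2]
    · rw [if_neg h2, if_neg]
      intro h3
      exact h2 (divmod_unique hβ hβ h3).2
  · rw [if_neg h, coeff_zero, if_neg]
    intro h3
    exact h (divmod_unique hβ' hβ h3).1.symm

lemma sum_ctr {q : ℕ} (hq : q ≠ 0) (G : MvPolynomial σ A) :
    ∑ β ∈ box σ q, monomial β 1 * expand q (ctr hq β G) = G := by
  induction G using MvPolynomial.induction_on' with
  | add a b ha hb =>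
    simp only [ctr_add, map_add, mul_add, Finset.sum_add_distrib, ha, hb]
  | monomial η a =>
    obtain ⟨β', hβ', μ, rfl⟩ := exists_divmod hq η
    rw [Finset.sum_eq_single β']
    · rw [ctr_monomial hq hβ' hβ', if_pos rfl, expand_monomial, monomial_mul, one_mul]
    · intro β hβ hne
      rw [ctr_monomial hq hβ hβ', if_neg hne, map_zero, mul_zero]
    · intro h; exact absurd hβ' h

end Ring

lemma qne (k : Type*) [Field k] (p : ℕ) [ExpChar k p] (e : ℕ) : p ^ e ≠ 0 :=
  pow_ne_zero e (expChar_ne_zero k p)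

section Field

variable {k : Type*} [Field k] (p : ℕ) [ExpChar k p] [PerfectRing k p] (e : ℕ)

/-- Frobenius components: `G = ∑ x ^ β * (cmp β G) ^ q` -/
def cmp (β : σ →₀ ℕ) (G : MvPolynomial σ k) : MvPolynomial σ k :=
  map ((iterateFrobeniusEquiv k p e).symm : k →+* k) (ctr (qne k p e) β G)

lemma coeff_cmp (β μ : σ →₀ ℕ) (G : MvPolynomial σ k) :
    coeff μ (cmp p e β G) = (iterateFrobeniusEquiv k p e).symm (coeff (β + p ^ e • μ) G) := by
  rw [cmp, coeff_map, coeff_ctr]; rfl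

lemma coeff_cmp_eq_zero (β μ : σ →₀ ℕ) (G : MvPolynomial σ k) :
    coeff μ (cmp p e β G) = 0 ↔ coeff (β + p ^ e • μ) G = 0 := by
  rw [coeff_cmp, map_eq_zero_iff _ (RingEquiv.injective _)]

lemma cmp_add (β : σ →₀ ℕ) (F G : MvPolynomial σ k) :
    cmp p e β (F + G) = cmp p e β F + cmp p e β G := by
  rw [cmp, ctr_add, map_add]; rfl

lemma cmp_zero (β : σ →₀ ℕ) : cmp p e β (0 : MvPolynomial σ k) = 0 := by
  rw [cmp, ctr_zero, map_zero]

lemma cmp_sum {ι : Type*} (s : Finset ι) (β : σ →₀ ℕ) (F : ι → MvPolynomial σ k) :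
    cmp p e β (∑ i ∈ s, F i) = ∑ i ∈ s, cmp p e β (F i) := by
  classical
  induction s using Finset.induction_on with
  | empty => simp [cmp_zero]
  | insert a s ha ih => rw [Finset.sum_insert ha, Finset.sum_insert ha, cmp_add, ih]

lemma map_frob_symm (h : MvPolynomial σ k) :
    map ((iterateFrobeniusEquiv k p e).symm : k →+* k) (map (iterateFrobenius k p e) h) = h := by
  rw [map_map]
  have : ((iterateFrobeniusEquiv k p e).symm : k →+* k).comp (iterateFrobenius k p e) =
      RingHom.id k := by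
    ext x
    exact (iterateFrobeniusEquiv k p e).symm_apply_apply x
  rw [this, map_id]

lemma map_symm_frob (h : MvPolynomial σ k) :
    map (iterateFrobenius k p e) (map ((iterateFrobeniusEquiv k p e).symm : k →+* k) h) = h := by
  rw [map_map]
  have : (iterateFrobenius k p e).comp ((iterateFrobeniusEquiv k p e).symm : k →+* k) =
      RingHom.id k := by
    ext x
    exact (iterateFrobeniusEquiv k p e).apply_symm_apply x
  rw [this, map_id]

lemma pow_eq_expand (h : MvPolynomial σ k) :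
    h ^ p ^ e = expand (p ^ e) (map (iterateFrobenius k p e) h) := by
  rw [← map_expand, map_iterateFrobenius_expand]

lemma cmp_mul_pow {β : σ →₀ ℕ} (hβ : β ∈ box σ (p ^ e)) (f h : MvPolynomial σ k) :
    cmp p e β (f * h ^ p ^ e) = cmp p e β f * h := by
  rw [pow_eq_expand p e, cmp, ctr_mul_expand _ hβ, map_mul, map_frob_symm]; rfl

lemma sum_cmp (G : MvPolynomial σ k) :
    ∑ β ∈ box σ (p ^ e), monomial β 1 * (cmp p e β G) ^ p ^ e = G := by
  conv_rhs => rw [← sum_ctr (qne k p e) G]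
  apply Finset.sum_congr rfl
  intro β _
  rw [pow_eq_expand p e, cmp, map_symm_frob]

lemma cmp_eq_zero_of_lt {β : σ →₀ ℕ} {f : MvPolynomial σ k} {n : ℕ} (hf : f.IsHomogeneous n)
    (h : n < β.degree) : cmp p e β f = 0 := by
  ext μ
  rw [coeff_zero, coeff_cmp_eq_zero]
  apply hf.coeff_eq_zero
  rw [degree_shift]; omega

lemma cmp_hom {β : σ →₀ ℕ} {f : MvPolynomial σ k} {n s : ℕ} (hf : f.IsHomogeneous n)
    (h : β.degree + p ^ e * s = n) : (cmp p e β f).IsHomogeneous s := by
  intro μ hμ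
  rw [Ne, coeff_cmp_eq_zero] at hμ
  have h1 : (β + p ^ e • μ).degree = n := by
    by_contra hne; exact hμ (hf.coeff_eq_zero hne)
  rw [degree_shift, ← h, add_right_inj] at h1
  have h2 := Nat.eq_of_mul_eq_mul_left (Nat.pos_of_ne_zero (qne k p e)) h1
  rw [← h2, Finsupp.degree_eq_weight_one]
  rfl

lemma exists_deg_of_cmp_ne {β : σ →₀ ℕ} {f : MvPolynomial σ k} {n : ℕ} (hf : f.IsHomogeneous n)
    (h : cmp p e β f ≠ 0) : ∃ s, β.degree + p ^ e * s = n := by
  obtain ⟨μ, hμ⟩ := ne_zero_iff.mp h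
  rw [Ne, coeff_cmp_eq_zero] at hμ
  refine ⟨μ.degree, ?_⟩
  rw [← degree_shift]
  by_contra hne; exact hμ (hf.coeff_eq_zero hne)

lemma cmp_mem_Wt {β : σ →₀ ℕ} {f : MvPolynomial σ k} {j : σ} {n n' : ℕ} (hf : f ∈ Wt k j n)
    (h : ∀ s < n', ud j β + p ^ e * s < n) : cmp p e β f ∈ Wt k j n' := by
  intro μ hμ
  rw [coeff_cmp_eq_zero]
  apply hf
  rw [ud_add, ud_smul]
  exact h _ hμ

/-- change of coordinates formula -/
lemma cmp_algHom (φ : MvPolynomial σ k →ₐ[k] MvPolynomial σ k) {γ : σ →₀ ℕ}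
    (hγ : γ ∈ box σ (p ^ e)) (G : MvPolynomial σ k) :
    cmp p e γ (φ G) =
      ∑ β ∈ box σ (p ^ e), cmp p e γ (φ (monomial β 1)) * φ (cmp p e β G) := by
  conv_lhs => rw [← sum_cmp p e G]
  rw [map_sum, cmp_sum]
  apply Finset.sum_congr rfl
  intro β _
  rw [map_mul, map_pow, cmp_mul_pow p e hγ]

/-- every component vanishes to high order -/
lemma cmp_mem_V {β : σ →₀ ℕ} (hβ : β ∈ box σ (p ^ e)) {G : MvPolynomial σ k} {j : σ} {v : σ → k}
    {n n' : ℕ} (hG : G ∈ V j v n)
    (h : ∀ s < n', (Fintype.card σ - 1) * (p ^ e - 1) + p ^ e * s < n) :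
    cmp p e β G ∈ V j v n' := by
  rw [← sh_neg_sh j v G, cmp_algHom p e _ hβ]
  apply Ideal.sum_mem
  intro γ hγ
  apply Ideal.mul_mem_left
  rw [mem_V, sh_sh_neg]
  refine cmp_mem_Wt p e hG fun s hs => ?_
  have := ud_le_of_lt j _ γ (mem_box.mp hγ)
  have := h s hs
  omega

/-- components of top level vanish to higher order -/
lemma top_mem_V {β : σ →₀ ℕ} (hβ : β ∈ box σ (p ^ e)) {G : MvPolynomial σ k}
    (htop : ∀ β' ∈ box σ (p ^ e), β.degree < β'.degree → cmp p e β' G = 0)
    {j : σ} {v : σ → k} {n n' : ℕ} (hG : G ∈ V j v n)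
    (h : ∀ s < n', β.degree + p ^ e * s < n) :
    cmp p e β G ∈ V j v n' := by
  have h1 : ∀ γ ∈ box σ (p ^ e), β.degree < γ.degree → cmp p e γ (sh j v G) = 0 := by
    intro γ hγ hlt
    rw [cmp_algHom p e _ hγ]
    apply Finset.sum_eq_zero
    intro β' hβ'
    by_cases h2 : β.degree < β'.degree
    · rw [htop β' hβ' h2, map_zero, mul_zero]
    · rw [cmp_eq_zero_of_lt p e (sh_hom j v (isHomogeneous_monomial 1 rfl)) (by omega), zero_mul]
  rw [← sh_neg_sh j v G, cmp_algHom p e _ hβ]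
  apply Ideal.sum_mem
  intro γ hγ
  by_cases h2 : β.degree < γ.degree
  · rw [h1 γ hγ h2, map_zero, mul_zero]; exact Ideal.zero_mem _
  · apply Ideal.mul_mem_left
    rw [mem_V, sh_sh_neg]
    refine cmp_mem_Wt p e hG fun s hs => ?_
    have := ud_le_degree j γ
    have := h s hs
    omega

lemma exists_top {G : MvPolynomial σ k} (hG : G ≠ 0) :
    ∃ β ∈ box σ (p ^ e), cmp p e β G ≠ 0 ∧
      ∀ β' ∈ box σ (p ^ e), β.degree < β'.degree → cmp p e β' G = 0 := by
  classical
  have hne : ((box σ (p ^ e)).filter fun β => cmp p e β G ≠ 0).Nonempty := by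
    by_contra h
    rw [Finset.not_nonempty_iff_eq_empty, Finset.filter_eq_empty_iff] at h
    apply hG
    rw [← sum_cmp p e G]
    apply Finset.sum_eq_zero
    intro β hβ
    have := h hβ
    rw [not_not] at this
    rw [this, zero_pow (qne k p e), mul_zero]
  obtain ⟨β, hβ, hmax⟩ := Finset.exists_max_image _ (fun β : σ →₀ ℕ => β.degree) hne
  rw [Finset.mem_filter] at hβ
  refine ⟨β, hβ.1, hβ.2, fun β' hβ' hlt => ?_⟩
  by_contra h
  have := hmax β' (Finset.mem_filter.mpr ⟨hβ', h⟩)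
  omega

end Field

end

end Pool.Agent.Lib.MP_cc5cd7_ag
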