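import Pool.Agent.Lib.MP_cc5cd7_ag.CharP

set_option autoImplicit false
set_option linter.unusedSectionVars false

namespace Pool.Agent.Lib.MP_cc5cd7_ag

open MvPolynomial

noncomputable section

variable {σ : Type*} [Fintype σ] [DecidableEq σ]

section Ring

variable {A : Type*} [CommRing A]

lemma sub_C_mem_vars (u : MvPolynomial σ A) : u - C (coeff 0 u) ∈ idealOfVars σ A := by
  rw [← pow_one (idealOfVars σ A), mem_pow_idealOfVars_iff']
  intro x hx
  have : x = 0 := by
    rw [← Finsupp.degree_eq_zero_iff]; omega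
  subst this
  simp

lemma X_mem_vars (i : σ) : (X i : MvPolynomial σ A) ∈ idealOfVars σ A :=
  Ideal.subset_span ⟨i, rfl⟩

lemma monomial_mem_vars_pow {n : ℕ} {β : σ →₀ ℕ} (h : n ≤ β.degree) (a : A) :
    monomial β a ∈ idealOfVars σ A ^ n := by
  rw [mem_pow_idealOfVars_iff']
  intro x hx
  rw [coeff_monomial, if_neg]
  rintro rfl; omega

lemma euler_mem {K : Type*} [Field K] {g : MvPolynomial σ K} {n : ℕ} (hg : g.IsHomogeneous n)
    (hn : (n : K) ≠ 0) {I : Ideal (MvPolynomial σ K)} (h : ∀ i, pderiv i g ∈ I) :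
    g ∈ idealOfVars σ K * I := by
  have h1 : n • g ∈ idealOfVars σ K * I := by
    rw [← hg.sum_X_mul_pderiv]
    exact Ideal.sum_mem _ fun i _ => Ideal.mul_mem_mul (X_mem_vars i) (h i)
  have h2 : g = C ((n : K)⁻¹) * (n • g) := by
    rw [nsmul_eq_mul, ← mul_assoc, ← map_natCast (C : K →+* MvPolynomial σ K), ← map_mul,
      inv_mul_cancel₀ hn, C_1, one_mul]
  rw [h2]
  exact Ideal.mul_mem_left _ _ h1

end Ring

variable {k : Type*} [Field k] (p : ℕ) [hp : Fact p.Prime] [CharP k p] [PerfectRing k p]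

lemma cmp_mul (e : ℕ) (f W : MvPolynomial σ k) {γ : σ →₀ ℕ} (hγ : γ ∈ box σ (p ^ e)) :
    cmp p e γ (f * W) =
      ∑ β ∈ box σ (p ^ e), cmp p e γ (f * monomial β 1) * cmp p e β W := by
  conv_lhs => rw [← sum_cmp p e W]
  rw [Finset.mul_sum, cmp_sum]
  apply Finset.sum_congr rfl
  intro β _
  rw [← mul_assoc, cmp_mul_pow p e hγ]

lemma coeff_zero_cmp_pow (e : ℕ) (γ : σ →₀ ℕ) (f : MvPolynomial σ k) :
    (coeff 0 (cmp p e γ f)) ^ p ^ e = coeff γ f := by
  rw [coeff_cmp, smul_zero, add_zero]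
  exact (iterateFrobeniusEquiv k p e).apply_symm_apply _

lemma cmp_pderiv (i : σ) (γ : σ →₀ ℕ) (W : MvPolynomial σ k) :
    cmp p 1 γ (pderiv i W) = (γ i + 1) • cmp p 1 (γ + Finsupp.single i 1) W := by
  ext μ
  rw [coeff_smul, coeff_cmp, coeff_cmp, coeff_pderiv, map_mul, nsmul_eq_mul, mul_comm]
  congr 1
  · have : (((γ + p ^ 1 • μ : σ →₀ ℕ) i : k) + 1) = ((γ i + 1 : ℕ) : k) := by
      simp
    rw [this, map_natCast]
  · congr 2
    abel

lemma add_single_mem_box {γ : σ →₀ ℕ} (hγ : γ ∈ box σ (p ^ 1)) (i : σ) (h : γ i + 1 ≠ p) :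
    γ + Finsupp.single i 1 ∈ box σ (p ^ 1) := by
  rw [mem_box] at hγ ⊢
  intro l
  have := hγ l
  rw [pow_one] at this ⊢
  by_cases hl : l = i
  · subst hl; simp; omega
  · simp [Finsupp.single_eq_of_ne hl]; exact this

lemma add_single_not_mem_box {γ : σ →₀ ℕ} (i : σ) (h : γ i + 1 = p) :
    γ + Finsupp.single i 1 ∉ box σ (p ^ 1) := by
  rw [mem_box]
  intro h1
  have := h1 i
  simp at this
  omega

lemma cmp_pderiv_mem {I : Ideal (MvPolynomial σ k)} {W : MvPolynomial σ k}
    (hW : ∀ β ∈ box σ (p ^ 1), cmp p 1 β W ∈ I) (i : σ) :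
    ∀ γ ∈ box σ (p ^ 1), cmp p 1 γ (pderiv i W) ∈ I := by
  intro γ hγ
  rw [cmp_pderiv]
  by_cases h : γ i + 1 = p
  · rw [h, nsmul_eq_mul, CharP.cast_eq_zero, zero_mul]; exact I.zero_mem
  · rw [nsmul_eq_mul]
    exact Ideal.mul_mem_left _ _ (hW _ (add_single_mem_box p hγ i h))

/-- the Frobenius pull back of a linear functional -/
def Phi (lam : MvPolynomial σ k →ₗ[k] k) (W : MvPolynomial σ k) : MvPolynomial σ k :=
  ∑ β ∈ box σ (p ^ 1), monomial β ((lam (cmp p 1 β W)) ^ p)

lemma coeff_Phi (lam : MvPolynomial σ k →ₗ[k] k) (W : MvPolynomial σ k) (γ : σ →₀ ℕ) :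
    coeff γ (Phi p lam W) = if γ ∈ box σ (p ^ 1) then (lam (cmp p 1 γ W)) ^ p else 0 := by
  rw [Phi, coeff_sum]
  simp only [coeff_monomial]
  rw [Finset.sum_ite_eq']

lemma Phi_pderiv (lam : MvPolynomial σ k →ₗ[k] k) (W : MvPolynomial σ k) (i : σ) :
    Phi p lam (pderiv i W) = pderiv i (Phi p lam W) := by
  ext γ
  rw [coeff_pderiv, coeff_Phi, coeff_Phi]
  by_cases hγ : γ ∈ box σ (p ^ 1)
  · rw [if_pos hγ, cmp_pderiv, map_nsmul, nsmul_eq_mul, mul_pow]
    by_cases h : γ i + 1 = p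
    · rw [if_neg (add_single_not_mem_box p i h), h, CharP.cast_eq_zero,
        zero_pow hp.out.ne_zero, zero_mul, zero_mul]
    · rw [if_pos (add_single_mem_box p hγ i h), mul_comm]
      congr 1
      have := map_natCast (frobenius k p) (γ i + 1)
      rw [frobenius_def] at this
      rw [this]; push_cast; rfl
  · rw [if_neg hγ, if_neg, zero_mul]
    intro h
    apply hγ
    rw [mem_box] at h ⊢
    intro l
    have := h l
    simp only [Finsupp.add_apply] at this
    omega

lemma coeff_mul_Phi (lam : MvPolynomial σ k →ₗ[k] k) {I : Ideal (MvPolynomial σ k)}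
    (hlam : ∀ x ∈ idealOfVars σ k * I, lam x = 0) {W : MvPolynomial σ k}
    (hW : ∀ β ∈ box σ (p ^ 1), cmp p 1 β W ∈ I) (f : MvPolynomial σ k) {γ : σ →₀ ℕ}
    (hγ : γ ∈ box σ (p ^ 1)) :
    coeff γ (f * Phi p lam W) = (lam (cmp p 1 γ (f * W))) ^ p := by
  have key : ∀ u w : MvPolynomial σ k, w ∈ I → lam (u * w) = coeff 0 u * lam w := by
    intro u w hw
    have h1 := hlam _ (Ideal.mul_mem_mul (sub_C_mem_vars u) hw)
    rw [sub_mul, map_sub, C_mul', map_smul, smul_eq_mul, sub_eq_zero] at h1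
    exact h1
  rw [cmp_mul p 1 f W hγ, map_sum, sum_pow_char, Phi, Finset.mul_sum, coeff_sum]
  apply Finset.sum_congr rfl
  intro β hβ
  rw [key _ _ (hW β hβ), mul_pow]
  have h2 := coeff_zero_cmp_pow p 1 γ (f * monomial β 1)
  rw [pow_one] at h2
  rw [h2]
  have h3 : ∀ c : k, monomial β c = c • monomial β (1 : k) := by
    intro c; rw [smul_monomial, smul_eq_mul, mul_one]
  rw [h3 (lam _ ^ p), mul_smul_comm, coeff_smul, smul_eq_mul, mul_comm]

lemma mem_box_of_degree_lt {q : ℕ} {γ : σ →₀ ℕ} (h : γ.degree < q) : γ ∈ box σ q := by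
  rw [mem_box]
  intro i
  exact lt_of_le_of_lt (Finsupp.le_degree i γ) h

lemma coeff_mul_component {A : Type*} [CommRing A] {f : MvPolynomial σ A} {n : ℕ}
    (hf : f.IsHomogeneous n) (u : MvPolynomial σ A) (c : ℕ) {γ : σ →₀ ℕ}
    (hγ : γ.degree = n + c) :
    coeff γ (f * homogeneousComponent c u) = coeff γ (f * u) := by
  rw [coeff_mul, coeff_mul]
  apply Finset.sum_congr rfl
  intro x hx
  have h := Finset.HasAntidiagonal.mem_antidiagonal.mp hx
  have h2 : x.1.degree + x.2.degree = n + c := by rw [← map_add, h, hγ]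
  by_cases h3 : x.1.degree = n
  · rw [coeff_homogeneousComponent, if_pos (by omega)]
  · rw [hf.coeff_eq_zero h3, zero_mul, zero_mul]

lemma pderiv_component {A : Type*} [CommRing A] (u : MvPolynomial σ A) (c : ℕ) (i : σ) :
    pderiv i (homogeneousComponent (c + 1) u) = homogeneousComponent c (pderiv i u) := by
  ext γ
  rw [coeff_pderiv, coeff_homogeneousComponent, coeff_homogeneousComponent, coeff_pderiv,
    map_add, Finsupp.degree_single]
  by_cases h : γ.degree = c
  · rw [if_pos h, if_pos (by omega)]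
  · rw [if_neg h, if_neg (by omega), zero_mul]

/-- if a functional killing `M I` does not kill a component of level zero of `F ^ a`, then there
are no components of higher level -/
lemma level_zero_top {F : MvPolynomial σ k} {d : ℕ} (hF : F.IsHomogeneous (d + 1)) (a : ℕ)
    {I : Ideal (MvPolynomial σ k)}
    (hG : ∀ β ∈ box σ (p ^ 1), cmp p 1 β (F ^ (a + 1)) ∈ I)
    {β₀ : σ →₀ ℕ} (hdeg : β₀.degree + d < p)
    (hnot : cmp p 1 β₀ (F ^ (a + 1)) ∉ idealOfVars σ k * I) :
    ∀ β ∈ box σ (p ^ 1), β₀.degree < β.degree → cmp p 1 β (F ^ (a + 1)) = 0 := by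
  obtain ⟨lam, hl1, hl2⟩ := Submodule.exists_le_ker_of_notMem
    (p := (idealOfVars σ k * I).restrictScalars k) hnot
  have hlam : ∀ x ∈ idealOfVars σ k * I, lam x = 0 := fun x hx => hl2 hx
  set G := F ^ (a + 1) with hGdef
  set L := homogeneousComponent β₀.degree (Phi p lam G) with hL
  have hβ₀ : β₀ ∈ box σ (p ^ 1) := mem_box_of_degree_lt (by rw [pow_one]; omega)
  have hLhom : L.IsHomogeneous β₀.degree := homogeneousComponent_isHomogeneous _ _
  have hL0 : L ≠ 0 := by
    intro h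
    have h1 : coeff β₀ L = 0 := by rw [h, coeff_zero]
    rw [hL, coeff_homogeneousComponent, if_pos rfl, coeff_Phi, if_pos hβ₀] at h1
    exact hl1 (pow_eq_zero_iff hp.out.ne_zero |>.mp h1)
  have hode : ∀ i, F * pderiv i L = ((a + 1 : ℕ) * pderiv i F) * L := by
    intro i
    have hF' : (((a + 1 : ℕ) : MvPolynomial σ k) * pderiv i F).IsHomogeneous d := by
      have h1 : (pderiv i F).IsHomogeneous d := by simpa using hF.pderiv (i := i)
      rw [← map_natCast (C : k →+* MvPolynomial σ k)]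
      exact h1.C_mul _
    have hrel : F * pderiv i G = ((a + 1 : ℕ) * pderiv i F) * G := by
      rw [hGdef, pderiv_pow, Nat.add_sub_cancel]; ring
    ext γ
    by_cases hγ : γ.degree = d + β₀.degree
    · have hγb : γ ∈ box σ (p ^ 1) := mem_box_of_degree_lt (by rw [pow_one]; omega)
      rw [hL, coeff_mul_component hF' _ _ hγ, coeff_mul_Phi p lam hlam hG _ hγb, ← hrel,
        ← coeff_mul_Phi p lam hlam (cmp_pderiv_mem p hG i) _ hγb, Phi_pderiv]
      rcases hb : β₀.degree with _ | c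
      · rw [homogeneousComponent_zero, pderiv_C, mul_zero, coeff_zero, coeff_mul]
        symm
        apply Finset.sum_eq_zero
        intro x hx
        have h := Finset.HasAntidiagonal.mem_antidiagonal.mp hx
        have h2 : x.1.degree + x.2.degree = d + β₀.degree := by rw [← map_add, h, hγ]
        rw [hF.coeff_eq_zero (by omega), zero_mul]
      · rw [pderiv_component, coeff_mul_component hF _ _ (by omega)]
    · rw [(hF'.mul hLhom).coeff_eq_zero hγ]
      rcases hb : β₀.degree with _ | c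
      · rw [hL, hb, homogeneousComponent_zero, pderiv_C, mul_zero, coeff_zero]
      · have h1 : (pderiv i L).IsHomogeneous c := by
          have := hLhom.pderiv (i := i)
          rwa [hb, Nat.add_sub_cancel] at this
        exact (hF.mul h1).coeff_eq_zero (by omega)
  obtain ⟨t, ht⟩ : ∃ t, p = t + 2 := ⟨p - 2, by have := hp.out.two_le; omega⟩
  have hder : ∀ i, pderiv i (G * L ^ (t + 1)) = 0 := by
    intro i
    have h1 : ((t + 1 : ℕ) : MvPolynomial σ k) = -1 := by
      have h2 : ((t + 2 : ℕ) : MvPolynomial σ k) = 0 := by rw [← ht]; exact CharP.cast_eq_zero _ p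
      push_cast at h2 ⊢
      linear_combination h2
    rw [pderiv_mul, pderiv_pow (f := L), h1, hGdef, pderiv_pow, Nat.add_sub_cancel,
      Nat.add_sub_cancel]
    linear_combination (-(F ^ a * L ^ t)) * hode i
  have hY := eq_pow_of_pderiv p hder
  set Y := cmp p 1 0 (G * L ^ (t + 1)) with hYdef
  have h3 : G * L ^ p ^ 1 = L * Y ^ p ^ 1 := by
    rw [pow_one, ← hY]
    have : L ^ p = L * L ^ (t + 1) := by rw [ht]; ring
    rw [this]; ring
  intro β hβ hlt
  have h4 := congrArg (cmp p 1 β) h3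
  rw [cmp_mul_pow p 1 hβ, cmp_mul_pow p 1 hβ, cmp_eq_zero_of_lt p 1 hLhom hlt, zero_mul] at h4
  exact (mul_eq_zero.mp h4).resolve_right hL0

lemma cmp_mem_of_frob {I : Ideal (MvPolynomial σ k)} {n : ℕ} {β : σ →₀ ℕ} (hβ : β.degree < p)
    {W : MvPolynomial σ k}
    (hW : W ∈ idealOfVars σ k ^ (p * n) * I.map (frobenius (MvPolynomial σ k) p)) :
    cmp p 1 β W ∈ idealOfVars σ k ^ n * I := by
  have hβb : β ∈ box σ (p ^ 1) := mem_box_of_degree_lt (by rw [pow_one]; exact hβ)
  have key : ∀ y ∈ I.map (frobenius (MvPolynomial σ k) p), ∀ x ∈ idealOfVars σ k ^ (p * n),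
      cmp p 1 β (x * y) ∈ idealOfVars σ k ^ n * I := by
    intro y hy
    rw [Ideal.map] at hy
    induction hy using Submodule.span_induction with
    | mem y hy =>
      obtain ⟨h, hh, rfl⟩ := hy
      intro x hx
      rw [frobenius_def]
      have e : h ^ p = h ^ p ^ 1 := by rw [pow_one]
      rw [e, cmp_mul_pow p 1 hβb]
      refine Ideal.mul_mem_mul ?_ hh
      rw [mem_pow_idealOfVars_iff'] at hx ⊢
      intro μ hμ
      rw [coeff_cmp_eq_zero]
      apply hx
      rw [degree_shift, pow_one]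
      have : p * (μ.degree + 1) ≤ p * n := Nat.mul_le_mul_left _ hμ
      rw [mul_add] at this
      omega
    | zero => intro x _; rw [mul_zero, cmp_zero]; exact Ideal.zero_mem _
    | add y z _ _ hy hz =>
      intro x hx
      rw [mul_add, cmp_add]; exact Ideal.add_mem _ (hy x hx) (hz x hx)
    | smul s y _ hy =>
      intro x hx
      rw [smul_eq_mul, ← mul_assoc]
      exact hy _ (Ideal.mul_mem_right _ _ hx)
  refine Submodule.mul_induction_on hW (fun x hx y hy => key y hy x hx) ?_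
  intro x y hx hy
  rw [cmp_add]; exact Ideal.add_mem _ hx hy

end

end Pool.Agent.Lib.MP_cc5cd7_ag
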