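import Pool.Agent.Lib.MP_cc5cd7_ag.Final

set_option autoImplicit false
set_option linter.unusedSectionVars false

namespace Pool.Agent.Lib.MP_cc5cd7_ag

open MvPolynomial

noncomputable section

universe u

variable {σ : Type*} [Fintype σ] [DecidableEq σ]

section CharP

variable {k : Type*} [Field k] (p : ℕ) [hp : Fact p.Prime] [CharP k p] [PerfectRing k p]

lemma cmp_mem_of_ifrob (e : ℕ) {I : Ideal (MvPolynomial σ k)} {n : ℕ} {β : σ →₀ ℕ}
    (hβ : β.degree < p ^ e) {W : MvPolynomial σ k}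
    (hW : W ∈ idealOfVars σ k ^ (p ^ e * n) * I.map (iterateFrobenius (MvPolynomial σ k) p e)) :
    cmp p e β W ∈ idealOfVars σ k ^ n * I := by
  have hβb : β ∈ box σ (p ^ e) := mem_box_of_degree_lt hβ
  have key : ∀ y ∈ I.map (iterateFrobenius (MvPolynomial σ k) p e),
      ∀ x ∈ idealOfVars σ k ^ (p ^ e * n), cmp p e β (x * y) ∈ idealOfVars σ k ^ n * I := by
    intro y hy
    rw [Ideal.map] at hy
    induction hy using Submodule.span_induction with
    | mem y hy =>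
      obtain ⟨h, hh, rfl⟩ := hy
      intro x hx
      rw [iterateFrobenius_def, cmp_mul_pow p e hβb]
      refine Ideal.mul_mem_mul ?_ hh
      rw [mem_pow_idealOfVars_iff'] at hx ⊢
      intro μ hμ
      rw [coeff_cmp_eq_zero]
      apply hx
      rw [degree_shift]
      have : p ^ e * (μ.degree + 1) ≤ p ^ e * n := Nat.mul_le_mul_left _ hμ
      rw [mul_add] at this
      omega
    | zero => intro x _; rw [mul_zero, cmp_zero]; exact Ideal.zero_mem _
    | add y z _ _ hy hz =>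
      intro x hx
      rw [mul_add, cmp_add]; exact Ideal.add_mem _ (hy x hx) (hz x hx)
    | smul s y _ hy =>
      intro x hx
      rw [smul_eq_mul, ← mul_assoc]
      exact hy _ (Ideal.mul_mem_right _ _ hx)
  refine Submodule.mul_induction_on hW (fun x hx y hy => key y hy x hx) ?_
  intro x y hx hy
  rw [cmp_add]; exact Ideal.add_mem _ hx hy

lemma descend_e (e : ℕ) {I : Ideal (MvPolynomial σ k)} {F u : MvPolynomial σ k} {c n : ℕ}
    (hu0 : u ≠ 0) (hu : u.IsHomogeneous c) (hc : c < p ^ e)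
    (h : u * F ^ p ^ e ∈
      idealOfVars σ k ^ (p ^ e * n) * I.map (iterateFrobenius (MvPolynomial σ k) p e)) :
    F ∈ idealOfVars σ k ^ n * I := by
  obtain ⟨β, hβ⟩ := ne_zero_iff.mp hu0
  have hdeg : β.degree = c := by
    by_contra hne; exact hβ (hu.coeff_eq_zero hne)
  have h1 := cmp_mem_of_ifrob p e (β := β) (by omega) h
  rw [cmp_mul_pow p e (mem_box_of_degree_lt (by omega))] at h1
  have h2 : (cmp p e β u).IsHomogeneous 0 := cmp_hom p e hu (by omega)
  rw [← totalDegree_zero_iff_isHomogeneous, totalDegree_eq_zero_iff_eq_C] at h2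
  have h3 : coeff 0 (cmp p e β u) ≠ 0 := by
    intro h4
    have := coeff_zero_cmp_pow p e β u
    rw [h4, zero_pow (qne k p e)] at this
    exact hβ this.symm
  rw [h2] at h1
  have h5 := Ideal.mul_mem_left _ (C (coeff 0 (cmp p e β u))⁻¹) h1
  rwa [← mul_assoc, ← map_mul, inv_mul_cancel₀ h3, C_1, one_mul] at h5

lemma hom_mem_vars_pow {A : Type*} [CommRing A] {f : MvPolynomial σ A} {d n : ℕ}
    (hf : f.IsHomogeneous d) (h : n ≤ d) : f ∈ idealOfVars σ A ^ n := by
  rw [mem_pow_idealOfVars_iff']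
  intro x hx
  exact hf.coeff_eq_zero (by omega)

/-- a form of degree `< q (D + 1)` with high vanishing -/
lemma mem_frob (e : ℕ) {N : ℕ} (hN : Fintype.card σ = N + 2) {ι : Type*} (j : ι → σ)
    (v : ι → σ → k) (μ ν : ι → ℕ) (D c w : ℕ) (G : MvPolynomial σ k) (hG : G.IsHomogeneous c)
    (hc : c < p ^ e * (D + 1)) (hw : w + p ^ e * D ≤ c)
    (hV : ∀ i, G ∈ V (j i) (v i) (ν i)) (hν : ∀ i, p ^ e * (μ i + N) ≤ ν i + N)
    (I : Ideal (MvPolynomial σ k))
    (hI : ∀ s ≤ D, ∀ g : MvPolynomial σ k, g.IsHomogeneous s →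
      (∀ i, g ∈ V (j i) (v i) (μ i)) → g ∈ I) :
    G ∈ idealOfVars σ k ^ w * I.map (iterateFrobenius (MvPolynomial σ k) p e) := by
  rw [← sum_cmp p e G]
  apply Ideal.sum_mem
  intro β hβ
  by_cases h0 : cmp p e β G = 0
  · rw [h0, zero_pow (qne k p e), mul_zero]; exact Ideal.zero_mem _
  obtain ⟨s, hs⟩ := exists_deg_of_cmp_ne p e hG h0
  have hsD : s ≤ D := by
    by_contra hlt
    have : p ^ e * (D + 1) ≤ p ^ e * s := Nat.mul_le_mul_left _ (by omega)
    omega
  have h1 : p ^ e * s ≤ p ^ e * D := Nat.mul_le_mul_left _ hsD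
  refine Ideal.mul_mem_mul (monomial_mem_vars_pow (by omega) 1) ?_
  have h2 : cmp p e β G ∈ I := by
    refine hI s hsD _ (cmp_hom p e hG hs) fun i => cmp_mem_V p e hβ (hV i) fun s' hs' => ?_
    rw [hN]
    obtain ⟨q', hq'⟩ : ∃ q', p ^ e = q' + 1 :=
      ⟨p ^ e - 1, by have := Nat.pos_of_ne_zero (qne k p e); omega⟩
    have h3 : p ^ e * (s' + 1 + N) ≤ p ^ e * (μ i + N) := Nat.mul_le_mul_left _ (by omega)
    have h4 := hν i
    have e1 : N + 2 - 1 = N + 1 := rfl
    rw [e1]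
    rw [hq'] at h3 h4 ⊢
    rw [Nat.add_sub_cancel]
    nlinarith
  have h3 := Ideal.mem_map_of_mem (iterateFrobenius (MvPolynomial σ k) p e) h2
  rwa [iterateFrobenius_def] at h3

include hp in
lemma exists_aux {N : ℕ} (hN : Fintype.card σ = N + 2) (hN1 : 1 ≤ N) {ι : Type*} (j : ι → σ)
    (v : ι → σ → k) (ν O : ι → ℕ) (d s : ℕ) (hd0 : 0 < d) (hO : ∀ i, d * O i ≤ (s + 1) * ν i)
    (F : MvPolynomial σ k) (hF0 : F ≠ 0) (hF : F.IsHomogeneous d)
    (hV : ∀ i, F ∈ V (j i) (v i) (ν i)) :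
    ∃ u : MvPolynomial σ k, u ≠ 0 ∧ u.IsHomogeneous s ∧ ∀ i, u ∈ V (j i) (v i) (O i - N) := by
  obtain ⟨e, he⟩ : ∃ e, d < p ^ e := ⟨_, Nat.lt_pow_self hp.out.one_lt⟩
  obtain ⟨a, b, hab, hb⟩ : ∃ a b, d * a = p ^ e * (s + 1) + b ∧ b ≤ d := by
    have h1 := Nat.div_add_mod (p ^ e * (s + 1)) d
    have h2 := Nat.mod_lt (p ^ e * (s + 1)) hd0
    refine ⟨p ^ e * (s + 1) / d + 1, d - p ^ e * (s + 1) % d, ?_, by omega⟩
    rw [mul_add]
    omega
  have hG : (F ^ a).IsHomogeneous (d * a) := hF.pow a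
  have hGV : ∀ i, F ^ a ∈ V (j i) (v i) (p ^ e * O i) := by
    intro i
    refine V_anti _ _ ?_ (V_pow (hV i) a)
    have h1 : p ^ e * (d * O i) ≤ p ^ e * ((s + 1) * ν i) := Nat.mul_le_mul_left _ (hO i)
    have h2 : d * (p ^ e * O i) ≤ d * (a * ν i) := by
      calc d * (p ^ e * O i) = p ^ e * (d * O i) := by ring
        _ ≤ p ^ e * (s + 1) * ν i := by rw [mul_assoc]; exact h1
        _ ≤ d * a * ν i := Nat.mul_le_mul_right _ (by omega)
        _ = _ := by ring
    exact Nat.le_of_mul_le_mul_left h2 hd0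
  obtain ⟨β, hβ, hne, htop⟩ := exists_top p e (pow_ne_zero a hF0)
  obtain ⟨c, hc⟩ := exists_deg_of_cmp_ne p e hG hne
  have hhom := cmp_hom p e hG hc
  by_cases hcs : c ≤ s
  · obtain ⟨x, -⟩ : ∃ x : σ, True := by
      have : Nonempty σ := Fintype.card_pos_iff.mp (by omega)
      exact ⟨Classical.arbitrary σ, trivial⟩
    refine ⟨cmp p e β (F ^ a) * X x ^ (s - c), mul_ne_zero hne (pow_ne_zero _ (X_ne_zero x)),
      ?_, fun i => Ideal.mul_mem_right _ _ (cmp_mem_V p e hβ (hGV i) fun s' hs' => ?_)⟩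
    · have := hhom.mul ((isHomogeneous_X k x).pow (s - c))
      rwa [one_mul, show c + (s - c) = s by omega] at this
    · rw [hN]
      obtain ⟨q', hq'⟩ : ∃ q', p ^ e = q' + 1 := ⟨p ^ e - 1, by omega⟩
      have h3 : p ^ e * (s' + 1 + N) ≤ p ^ e * O i := Nat.mul_le_mul_left _ (by omega)
      have e1 : N + 2 - 1 = N + 1 := rfl
      rw [e1]
      rw [hq'] at h3 ⊢
      rw [Nat.add_sub_cancel]
      nlinarith
  · have hc1 : c = s + 1 := by
      by_contra hne2
      have : p ^ e * (s + 2) ≤ p ^ e * c := Nat.mul_le_mul_left _ (by omega)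
      rw [show s + 2 = s + 1 + 1 from rfl, mul_add, mul_one] at this
      omega
    subst hc1
    obtain ⟨u, hu0, hu, huV⟩ := deriv_step p s _ hne hhom
    refine ⟨u, hu0, hu, fun i => ?_⟩
    rcases Nat.eq_zero_or_pos (O i - N) with h1 | h1
    · rw [h1, V_zero]; trivial
    · refine huV _ _ _ (top_mem_V p e hβ htop (hGV i) fun s' hs' => ?_)
      have h3 : p ^ e * (s' + 1) ≤ p ^ e * O i := Nat.mul_le_mul_left _ (by omega)
      rw [mul_add, mul_one] at h3
      omega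

include hp in
lemma scale_charP {N : ℕ} (hN : Fintype.card σ = N + 2) (hN1 : 1 ≤ N) {ι : Type*} (j : ι → σ)
    (v : ι → σ → k) (μ ν : ι → ℕ) (r d D E : ℕ) (hE : 1 ≤ E) (hr : 1 ≤ r)
    (hD : r * D + r * E ≤ d) (hν : ∀ i, (μ i + N) * d ≤ (D + 1) * ν i)
    (F : MvPolynomial σ k) (hF : F.IsHomogeneous d)
    (hV : ∀ i, F ∈ V (j i) (v i) (ν i)) (I : Ideal (MvPolynomial σ k))
    (hI : ∀ s ≤ d, ∀ g : MvPolynomial σ k, g.IsHomogeneous s →
      (∀ i, g ∈ V (j i) (v i) (μ i)) → g ∈ I) :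
    F ∈ idealOfVars σ k ^ (r * E) * I ^ r := by
  by_cases hF0 : F = 0
  · rw [hF0]; exact Ideal.zero_mem _
  have hd0 : 0 < d := by nlinarith
  obtain ⟨e, he⟩ : ∃ e, d * d < p ^ e := ⟨_, Nat.lt_pow_self hp.out.one_lt⟩
  set q := p ^ e with hq
  obtain ⟨a, s, ha, hs⟩ : ∃ a s, d * a + (s + 1) = q * (D + 1) ∧ s < d := by
    have hpos : 0 < q * (D + 1) := by nlinarith
    have h1 := Nat.div_add_mod (q * (D + 1) - 1) d
    have h2 := Nat.mod_lt (q * (D + 1) - 1) hd0
    exact ⟨(q * (D + 1) - 1) / d, (q * (D + 1) - 1) % d, by omega, h2⟩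
  have hDd : D ≤ d := by nlinarith
  have hrd : r ≤ d := by nlinarith
  have har : a * r ≤ q := by
    have h1 : r * (D + 1) ≤ d := by nlinarith
    have h2 : d * (a * r) ≤ d * q := by
      calc d * (a * r) = r * (d * a) := by ring
        _ ≤ r * (q * (D + 1)) := Nat.mul_le_mul_left _ (by omega)
        _ = q * (r * (D + 1)) := by ring
        _ ≤ q * d := Nat.mul_le_mul_left _ h1
        _ = d * q := by ring
    exact Nat.le_of_mul_le_mul_left h2 hd0
  obtain ⟨b, hb⟩ : ∃ b, q = a * r + b := ⟨q - a * r, by omega⟩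
  obtain ⟨w, hw⟩ : ∃ w, q = w + 1 := ⟨q - 1, by omega⟩
  obtain ⟨u, hu0, hu, huV⟩ := exists_aux p hN hN1 j v ν (fun i => q * (μ i + N) - a * ν i) d s hd0
    (fun i => by
      rw [Nat.mul_sub]
      have h1 : q * ((μ i + N) * d) ≤ q * ((D + 1) * ν i) := Nat.mul_le_mul_left _ (hν i)
      have h2 : q * ((D + 1) * ν i) = d * (a * ν i) + (s + 1) * ν i := by
        rw [← mul_assoc, ← ha]; ring
      have h3 : d * (q * (μ i + N)) = q * ((μ i + N) * d) := by ring
      omega) F hF0 hF hV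
  have hqD : q * (D + 1) = q * D + q := by ring
  have hG := mem_frob p e hN j v μ (fun i => q * (μ i + N) - a * ν i - N + a * ν i) D (s + d * a)
    w (u * F ^ a) (hu.mul (hF.pow a)) (by rw [← hq]; omega) (by rw [← hq]; omega)
    (fun i => V_mul (huV i) (V_pow (hV i) a)) (fun i => by rw [← hq]; omega) I
    (fun s hs => hI s (hs.trans hDd))
  have hGr := Ideal.pow_mem_pow hG r
  rw [mul_pow, mul_pow, ← pow_mul, ← pow_mul, ← Ideal.map_pow] at hGr
  have h1 := Ideal.mul_mem_mul (hom_mem_vars_pow (hF.pow b) le_rfl) hGr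
  rw [← mul_assoc (idealOfVars σ k ^ (d * b)), ← pow_add] at h1
  refine descend_e p e (pow_ne_zero r hu0) (hu.pow r) (by rw [← hq]; nlinarith) ?_
  have e1 : u ^ r * F ^ p ^ e = F ^ b * (u ^ r * F ^ (a * r)) := by rw [← hq, hb]; ring
  rw [e1, ← hq]
  refine Ideal.mul_mono_left (Ideal.pow_le_pow_right ?_) h1
  have h2 : q * (r * D + r * E) ≤ q * d := Nat.mul_le_mul_left _ hD
  have h3 : d * q = d * a * r + d * b := by rw [hb]; ring
  have h4 : d * a * r + (s + 1) * r = (q * D + (w + 1)) * r := by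
    rw [← add_mul, ha, hqD, ← hw]
  nlinarith

end CharP

attribute [local instance] MvPolynomial.gradedAlgebra

/-- transfer from finite fields to an arbitrary field -/
lemma transfer {K : Type u} [Field K] {ι : Type*} [Fintype ι] (j : ι → σ)
    (v : ι → σ → K) (μ ν : ι → ℕ) (r d n : ℕ)
    (H : ∀ (k : Type u) [Field k] (p : ℕ) [Fact p.Prime] [CharP k p] [PerfectRing k p]
      (v : ι → σ → k) (F : MvPolynomial σ k), F.IsHomogeneous d →
      (∀ i, F ∈ V (j i) (v i) (ν i)) → ∀ I : Ideal (MvPolynomial σ k),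
      (∀ s ≤ d, ∀ g : MvPolynomial σ k, g.IsHomogeneous s →
        (∀ i, g ∈ V (j i) (v i) (μ i)) → g ∈ I) → F ∈ idealOfVars σ k ^ n * I ^ r)
    (F : MvPolynomial σ K) (hF : F.IsHomogeneous d)
    (hV : ∀ i, F ∈ V (j i) (v i) (ν i)) :
    F ∈ idealOfVars σ K ^ n * (⨅ i, V (j i) (v i) (μ i)) ^ r := by
  by_contra hnot
  set J : Ideal (MvPolynomial σ K) := ⨅ i, V (j i) (v i) (μ i) with hJ
  have hJhom : J.IsHomogeneous (homogeneousSubmodule σ K) := by
    apply hom_of_component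
    intro f hf c
    rw [hJ, Ideal.mem_iInf] at hf ⊢
    exact fun i => component_mem_V (hf i) c
  have hchom := (hom_pow (hom_vars (σ := σ) (A := K)) n).mul (hom_pow hJhom r)
  obtain ⟨Ψ, hΨ1, hΨ2⟩ := Submodule.exists_le_ker_of_notMem
    (p := (idealOfVars σ K ^ n * J ^ r).restrictScalars K) hnot
  choose T hT hfam using fun c => exists_family.{u} j v μ c
  obtain ⟨A, hA, k, _, p, hp, _, _, ⟨ψ⟩⟩ := exists_spec K
    ((⋃ c ∈ Set.Iic d, T c) ∪ (Set.range fun x : ι × σ => v x.1 x.2) ∪ (F.coeffs : Set K) ∪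
      (Set.range fun η : mons σ d => Ψ (monomial η.1 1)) ∪ {(Ψ F)⁻¹})
    ((((((Set.finite_Iic d).biUnion fun c _ => hT c).union (Set.finite_range _)).union
      (Finset.finite_toSet _)).union (Set.finite_range _)).union (Set.toFinite _))
  have hA1 : ∀ c ≤ d, ∀ x ∈ T c, x ∈ A := fun c hc x hx =>
    hA x (Or.inl (Or.inl (Or.inl (Or.inl (Set.mem_biUnion hc hx)))))
  have hA2 : ∀ i a, v i a ∈ A := fun i a =>
    hA _ (Or.inl (Or.inl (Or.inl (Or.inr ⟨(i, a), rfl⟩))))
  have hA3 : ∀ x ∈ F.coeffs, x ∈ A := fun x hx => hA x (Or.inl (Or.inl (Or.inr hx)))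
  have hA4 : ∀ η : mons σ d, Ψ (monomial η.1 1) ∈ A := fun η =>
    hA _ (Or.inl (Or.inr ⟨η, rfl⟩))
  have hA5 : (Ψ F)⁻¹ ∈ A := hA _ (Or.inr rfl)
  obtain ⟨v', hv'⟩ : ∃ v' : ι → σ → A, ∀ i a, (v' i a : K) = v i a :=
    ⟨fun i a => ⟨v i a, hA2 i a⟩, fun _ _ => rfl⟩
  have hv'' : ∀ i, (fun a => A.subtype (v' i a)) = v i := fun i => funext fun a => hv' i a
  obtain ⟨y, hy⟩ : ∃ y : mons σ d → A, (fun η => A.subtype (y η)) = fun η => Ψ (monomial η.1 1) :=
    ⟨fun η => ⟨_, hA4 η⟩, rfl⟩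
  choose w hw1 hw2 hw3 using fun (c : ℕ) (hc : c ≤ d) => hfam c A (hA1 c hc) v' hv'
  obtain ⟨F', hF'⟩ := exists_lift A F hA3
  have hF'hom : F'.IsHomogeneous d := by
    apply IsHomogeneous.of_map A.subtype_injective
    rw [hF']; exact hF
  have hF'V : ∀ i, F' ∈ V (j i) (v' i) (ν i) := by
    intro i
    apply mem_V_of_map A.subtype A.subtype_injective
    rw [hF', hv'']; exact hV i
  let J' : Ideal (MvPolynomial σ A) := Ideal.span {g | ∃ c hc η, g = w c hc η}
  have hJ' : J'.map (MvPolynomial.map A.subtype) ≤ J := by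
    rw [Ideal.map_span, Ideal.span_le]
    rintro _ ⟨_, ⟨c, hc, η, rfl⟩, rfl⟩
    rw [SetLike.mem_coe, hJ, Ideal.mem_iInf]
    intro i
    have h4 := map_mem_V A.subtype (hw2 c hc η i)
    rwa [hv''] at h4
  have hmem := H k p (fun i a => ψ (v' i a)) (map ψ F')
    (hF'hom.map ψ) (fun i => map_mem_V ψ (hF'V i)) (J'.map (MvPolynomial.map ψ)) (by
      intro c hc g hg hgV
      rw [hw3 c hc k ψ g hg hgV]
      apply Ideal.sum_mem
      intro η _
      rw [smul_eq_C_mul]
      exact Ideal.mul_mem_left _ _ (Ideal.mem_map_of_mem _ (Ideal.subset_span ⟨c, hc, η, rfl⟩)))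
  rw [← map_vars ψ, ← Ideal.map_pow, ← Ideal.map_pow, ← Ideal.map_mul] at hmem
  have hpair : ∀ g : MvPolynomial σ A,
      A.subtype (pair d y g) = Ψ (homogeneousComponent d (map A.subtype g)) := by
    intro g
    rw [← pair_map, hy, pair_eq]
  have h0 := pair_map_ideal ψ d y _ (by
    intro g hg
    apply A.subtype_injective
    rw [hpair, map_zero]
    apply hΨ2
    apply homogeneousComponent_mem_of_mem hchom
    have h1 := Ideal.mem_map_of_mem (MvPolynomial.map A.subtype) hg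
    rw [Ideal.map_mul, Ideal.map_pow, Ideal.map_pow, map_vars] at h1
    exact Ideal.mul_mono_right (Ideal.pow_right_mono hJ' r) h1) _ hmem
  rw [pair_map] at h0
  have h2 : pair d y F' * ⟨_, hA5⟩ = 1 := by
    apply A.subtype_injective
    rw [map_mul, hpair, hF', homogeneousComponent_eq_self hF, map_one]
    exact mul_inv_cancel₀ hΨ1
  have h3 := congrArg ψ h2
  rw [map_mul, h0, zero_mul, map_one] at h3
  exact zero_ne_one h3

theorem scale {K : Type u} [Field K] {N : ℕ} (hN : 2 ≤ N)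
    (S : Finset (Projectivization K (Fin (N + 1) → K))) (hS : S.Nonempty)
    (mult : Projectivization K (Fin (N + 1) → K) → ℕ) (hmult : ∀ P ∈ S, 1 ≤ mult P)
    (r m j E : ℕ) (hr : 1 ≤ r) (hE : 1 ≤ E)
    (h : ∀ P ∈ S, (r * E - 1) * ((r * (m + N - 1) + j) * mult P) ≤
      (j * mult P + r * (N - 1) * (mult P - 1)) * alpha (fatIdeal S mult (r * (m + N - 1) + j))) :
    fatIdeal S mult (r * (m + N - 1) + j) ≤
      Ideal.span (Set.range X) ^ (r * E) * fatIdeal S mult m ^ r := by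
  obtain ⟨P0, hP0⟩ := hS
  obtain ⟨n, rfl⟩ : ∃ n, N = n + 1 := ⟨N - 1, by omega⟩
  have e0 : m + (n + 1) - 1 = m + n := by omega
  rw [e0] at h ⊢
  rw [Nat.add_sub_cancel] at h
  set t := r * (m + n) + j with ht
  intro F hF
  rw [← sum_homogeneousComponent F]
  apply Ideal.sum_mem
  intro d _
  have hFd : homogeneousComponent d F ∈ fatIdeal S mult t := by
    rw [mem_fatIdeal] at hF ⊢
    exact fun P => component_mem_V (hF P) d
  have hom := homogeneousComponent_isHomogeneous d F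
  by_cases h0 : homogeneousComponent d F = 0
  · rw [h0]; exact Ideal.zero_mem _
  have hα : alpha (fatIdeal S mult t) ≤ d := by
    have := alpha_le hFd h0
    rwa [hom.totalDegree h0] at this
  obtain ⟨x, hx⟩ : ∃ x, r * E = x + 1 := ⟨r * E - 1, by
    have : 1 ≤ r * E := Nat.mul_pos hr hE
    omega⟩
  have key : ∀ P ∈ S, r * (m * mult P + n) * d + x * (t * mult P) ≤ d * (t * mult P) := by
    intro P hP
    have h1 := h P hP
    rw [hx, Nat.add_sub_cancel] at h1
    have h2 := le_trans h1 (Nat.mul_le_mul_left _ hα)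
    obtain ⟨c, hc⟩ : ∃ c, mult P = c + 1 := ⟨mult P - 1, by have := hmult P hP; omega⟩
    rw [hc, Nat.add_sub_cancel] at h2
    have h4 : d * (t * (c + 1)) = r * (m * (c + 1) + n) * d + (j * (c + 1) + r * n * c) * d := by
      rw [ht]; ring
    rw [hc]
    omega
  have hxd : x + 1 ≤ d := by
    have h1 := key P0 hP0
    by_contra hlt
    have h2 : d * (t * mult P0) ≤ x * (t * mult P0) := Nat.mul_le_mul_right _ (by omega)
    have h3 : t * mult P0 ≤ d := le_of_mem_V h0 hom (mem_fatIdeal.mp hFd ⟨P0, hP0⟩)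
    have h4 : 0 < t * mult P0 := Nat.mul_pos (by rw [ht]; nlinarith) (hmult P0 hP0)
    have h5 : 0 < r * (m * mult P0 + n) * d :=
      Nat.mul_pos (Nat.mul_pos hr (by omega)) (by omega)
    omega
  obtain ⟨D, hD1, hD2⟩ : ∃ D, r * D + r * E ≤ d ∧ d ≤ r * (D + 1) + x := by
    refine ⟨(d - r * E) / r, ?_, ?_⟩
    · have := Nat.mul_div_le (d - r * E) r
      omega
    · have h1 := Nat.div_add_mod (d - r * E) r
      have h2 := Nat.mod_lt (d - r * E) (show 0 < r by omega)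
      rw [mul_add]
      omega
  have h1 := transfer (σ := Fin (n + 1 + 1)) (fun P : S => cj P.1) (fun P : S => cv P.1)
    (fun P : S => m * mult P.1) (fun P : S => t * mult P.1) r d (r * E)
    (fun k _ p _ _ _ v G hG hV I hI => scale_charP p (N := n) (by rw [Fintype.card_fin])
      (by omega) _ v _ _
      r d D E hE hr hD1 (fun P => by
        have h2 := key P.1 P.2
        have h3 : d * (t * mult P.1) ≤ (r * (D + 1) + x) * (t * mult P.1) :=
          Nat.mul_le_mul_right _ hD2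
        have h4 : r * ((m * mult P.1 + n) * d) ≤ r * ((D + 1) * (t * mult P.1)) := by nlinarith
        exact Nat.le_of_mul_le_mul_left h4 hr) G hG hV I hI) _ hom (mem_fatIdeal.mp hFd)
  rw [← fatIdeal_eq] at h1
  exact h1

end

end Pool.Agent.Lib.MP_cc5cd7_ag
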